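import Mathlib

/-! Sector geometry for MP_48d627_an. -/

open Complex Metric Set

namespace Pool.Agent.Lib.MP_48d627_an

/-- the open sector of opening `60` degrees around the positive axis -/
def S : Set ℂ := {w | √3 * |w.im| < w.re}

/-- the closed sector -/
def Sc : Set ℂ := {w | √3 * |w.im| ≤ w.re}

lemma sqrt3_pos : (0:ℝ) < √3 := by positivity

lemma sqrt3_sq : (√3 : ℝ) * √3 = 3 := Real.mul_self_sqrt (by norm_num)

lemma S_re_pos {w : ℂ} (hw : w ∈ S) : 0 < w.re :=
  lt_of_le_of_lt (mul_nonneg sqrt3_pos.le (abs_nonneg _)) hw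

lemma S_ne_zero {w : ℂ} (hw : w ∈ S) : w ≠ 0 := by
  rintro rfl
  simpa using S_re_pos hw

lemma S_add {w s : ℂ} (hw : w ∈ S) (hs : s ∈ Sc) : w + s ∈ S := by
  simp only [S, Sc, mem_ofPred_eq, add_re, add_im] at *
  have h := abs_add_le w.im s.im
  nlinarith [sqrt3_pos]

lemma S_add' {w s : ℂ} (hw : w ∈ S) (hs : s ∈ S) : w + s ∈ S :=
  S_add hw (le_of_lt (show √3 * |s.im| < s.re from hs))

lemma Sc_add {w s : ℂ} (hw : w ∈ Sc) (hs : s ∈ Sc) : w + s ∈ Sc := by
  simp only [Sc, mem_ofPred_eq, add_re, add_im] at *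
  have h := abs_add_le w.im s.im
  nlinarith [sqrt3_pos]

lemma ofReal_mem_Sc {x : ℝ} (hx : 0 ≤ x) : (x : ℂ) ∈ Sc := by
  simp [Sc, hx]

lemma ofReal_mem_S {x : ℝ} (hx : 0 < x) : (x : ℂ) ∈ S := by
  simp [S, hx]

lemma S_mul {w : ℂ} (hw : w ∈ S) {x : ℝ} (hx : 0 < x) : (x : ℂ) * w ∈ S := by
  simp only [S, mem_ofPred_eq, mul_re, ofReal_re, ofReal_im, zero_mul, sub_zero, mul_im,
    add_zero] at *
  rw [abs_mul, abs_of_pos hx]
  nlinarith

lemma isOpen_S : IsOpen S := by
  unfold S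
  exact isOpen_lt (by fun_prop) (by fun_prop)

lemma convex_S : Convex ℝ S := by
  intro a ha b hb s t hs ht hst
  simp only [S, mem_ofPred_eq, add_re, add_im, real_smul, mul_re, ofReal_re, ofReal_im, zero_mul,
    sub_zero, mul_im, add_zero] at *
  have h := abs_add_le (s * a.im) (t * b.im)
  rw [abs_mul, abs_mul, abs_of_nonneg hs, abs_of_nonneg ht] at h
  rcases hs.eq_or_lt with rfl | hs'
  · have : t = 1 := by linarith
    subst this
    simpa using hb
  · nlinarith [sqrt3_pos, mul_le_mul_of_nonneg_left h sqrt3_pos.le, mul_lt_mul_of_pos_left ha hs',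
      mul_le_mul_of_nonneg_left hb.le ht]

lemma S_norm_le {w : ℂ} (hw : w ∈ S) : √3 / 2 * ‖w‖ ≤ w.re := by
  have h0 := S_re_pos hw
  have h1 : √3 * |w.im| < w.re := hw
  have h2 : ‖w‖ ^ 2 = w.re ^ 2 + w.im ^ 2 := by
    rw [← Complex.normSq_eq_norm_sq, Complex.normSq_apply]; ring
  have h3 : 3 * w.im ^ 2 ≤ w.re ^ 2 := by
    have : (√3 * |w.im|) ^ 2 ≤ w.re ^ 2 := by
      apply pow_le_pow_left₀ (by positivity) h1.le
    rw [mul_pow, Real.sq_sqrt (by norm_num), sq_abs] at this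
    exact this
  have h4 : (√3 / 2 * ‖w‖) ^ 2 ≤ w.re ^ 2 := by
    rw [mul_pow, div_pow, Real.sq_sqrt (by norm_num), h2]
    linarith
  exact (pow_le_pow_iff_left₀ (by positivity) h0.le (by norm_num)).mp h4

lemma cube_re (w : ℂ) : (w ^ 3).re = w.re * (w.re - √3 * |w.im|) * (w.re + √3 * |w.im|) := by
  have h : (w ^ 3).re = w.re * (w.re ^ 2 - 3 * w.im ^ 2) := by
    simp only [pow_succ, pow_zero, one_mul, mul_re, mul_im]
    ring
  rw [h]
  have h3 : (√3 * |w.im|) * (√3 * |w.im|) = 3 * w.im ^ 2 := by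
    rw [mul_mul_mul_comm, sqrt3_sq, ← pow_two, sq_abs]
  linear_combination w.re * h3

lemma cube_re_pos {w : ℂ} (hw : w ∈ S) : 0 < (w ^ 3).re := by
  rw [cube_re]
  have h0 := S_re_pos hw
  have h1 : √3 * |w.im| < w.re := hw
  have h2 : 0 ≤ √3 * |w.im| := by positivity
  have : 0 < w.re - √3 * |w.im| := by linarith
  have : 0 < w.re + √3 * |w.im| := by linarith
  positivity

/-- the conformal map from the sector to the disc -/
noncomputable def Z (w : ℂ) : ℂ := (w ^ 3 - 1) / (w ^ 3 + 1)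

/-- its inverse -/
noncomputable def W (z : ℂ) : ℂ := ((1 + z) / (1 - z)) ^ ((1:ℂ) / 3)

lemma cayley_mem {p : ℂ} (hp : 0 < p.re) : (p - 1) / (p + 1) ∈ ball (0:ℂ) 1 := by
  rw [mem_ball_zero_iff, norm_div, div_lt_one]
  · rw [← sq_lt_sq₀ (norm_nonneg _) (norm_nonneg _), ← Complex.normSq_eq_norm_sq,
      ← Complex.normSq_eq_norm_sq, Complex.normSq_apply, Complex.normSq_apply]
    simp only [sub_re, one_re, sub_im, one_im, sub_zero, add_re, add_im, add_zero]
    nlinarith
  · rw [norm_pos_iff]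
    intro h
    have := congrArg Complex.re h
    simp at this
    linarith

lemma one_sub_ne {z : ℂ} (hz : z ∈ ball (0:ℂ) 1) : 1 - z ≠ 0 := by
  intro h
  have : z = 1 := (sub_eq_zero.mp h).symm
  rw [this] at hz
  simp at hz

lemma invCayley_re_pos {z : ℂ} (hz : z ∈ ball (0:ℂ) 1) : 0 < ((1 + z) / (1 - z)).re := by
  have h1 := one_sub_ne hz
  rw [Complex.div_re, ← add_div]
  apply div_pos
  · have : ‖z‖ < 1 := by simpa using hz
    have h2 : Complex.normSq z < 1 := by
      rw [Complex.normSq_eq_norm_sq]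
      nlinarith [norm_nonneg z]
    rw [Complex.normSq_apply] at h2
    simp only [add_re, one_re, sub_re, add_im, one_im, zero_add, sub_im, zero_sub]
    nlinarith
  · exact Complex.normSq_pos.mpr h1

lemma Z_mem {w : ℂ} (hw : w ∈ S) : Z w ∈ ball (0:ℂ) 1 := cayley_mem (cube_re_pos hw)

lemma cube_add_one_ne {w : ℂ} (hw : w ∈ S) : w ^ 3 + 1 ≠ 0 := by
  intro h
  have := congrArg Complex.re h
  simp only [add_re, one_re, zero_re] at this
  have := cube_re_pos hw
  linarith

lemma W_mem {z : ℂ} (hz : z ∈ ball (0:ℂ) 1) : W z ∈ S := by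
  have hp := invCayley_re_pos hz
  set p := (1 + z) / (1 - z) with hpdef
  have hp0 : p ≠ 0 := by
    intro h; rw [h] at hp; simp at hp
  have harg : |p.arg| < Real.pi / 2 := Complex.abs_arg_lt_pi_div_two_iff.mpr (Or.inl hp)
  have hW : W z = ((‖p‖ ^ ((1:ℝ) / 3) : ℝ) : ℂ) * Complex.exp (((p.arg / 3 : ℝ) : ℂ) * I) := by
    unfold W
    rw [← hpdef, Complex.cpow_def_of_ne_zero hp0]
    have : Complex.log p = (Real.log ‖p‖ : ℂ) + p.arg * I := by
      apply Complex.ext <;> simp [Complex.log_re, Complex.log_im]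
    rw [this, add_mul, Complex.exp_add]
    congr 1
    · rw [Real.rpow_def_of_pos (norm_pos_iff.mpr hp0)]
      push_cast
      rfl
    · congr 1
      push_cast
      ring
  have hr : 0 < ‖p‖ ^ ((1:ℝ) / 3) := Real.rpow_pos_of_pos (norm_pos_iff.mpr hp0) _
  rw [hW]
  apply S_mul _ hr
  simp only [S, mem_ofPred_eq, Complex.exp_ofReal_mul_I_re, Complex.exp_ofReal_mul_I_im]
  set a := p.arg / 3 with ha
  have ha1 : |a| < Real.pi / 6 := by
    rw [ha, abs_div, abs_of_pos (by norm_num : (0:ℝ) < 3)]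
    linarith
  have hcos : Real.cos a = Real.cos |a| := (Real.cos_abs a).symm
  have hsin : |Real.sin a| = Real.sin |a| := by
    rcases le_total 0 a with h | h
    · rw [abs_of_nonneg h, abs_of_nonneg]
      apply Real.sin_nonneg_of_nonneg_of_le_pi h
      have := Real.pi_pos
      have := abs_of_nonneg h
      linarith
    · rw [abs_of_nonpos h, Real.sin_neg, abs_of_nonpos]
      apply Real.sin_nonpos_of_nonpos_of_neg_pi_le h
      have := Real.pi_pos
      have := abs_of_nonpos h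
      linarith
  rw [hcos, hsin]
  set b := |a| with hb
  have hb0 : 0 ≤ b := abs_nonneg _
  have hpi := Real.pi_pos
  have h1 : 0 < Real.sin (Real.pi / 6 - b) := by
    apply Real.sin_pos_of_pos_of_lt_pi <;> linarith
  rw [Real.sin_sub, Real.sin_pi_div_six, Real.cos_pi_div_six] at h1
  nlinarith [sqrt3_pos, sqrt3_sq]

lemma W_cube {z : ℂ} (hz : z ∈ ball (0:ℂ) 1) : W z ^ 3 = (1 + z) / (1 - z) := by
  unfold W
  rw [← Complex.cpow_nat_mul]
  norm_num

lemma Z_W {z : ℂ} (hz : z ∈ ball (0:ℂ) 1) : Z (W z) = z := by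
  unfold Z
  rw [W_cube hz]
  have h1 := one_sub_ne hz
  field_simp
  ring_nf

lemma cube_inj {a b : ℂ} (ha : a ∈ S) (hb : b ∈ S) (h : a ^ 3 = b ^ 3) : a = b := by
  have h1 : (a - b) * (a ^ 2 + a * b + b ^ 2) = 0 := by linear_combination h
  rcases mul_eq_zero.mp h1 with h2 | h2
  · exact sub_eq_zero.mp h2
  · exfalso
    -- real part of a * conj-like expression: use args
    have ha' : √3 * |a.im| < a.re := ha
    have hb' : √3 * |b.im| < b.re := hb
    have ha0 := S_re_pos ha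
    have hb0 := S_re_pos hb
    have hre := congrArg Complex.re h2
    simp only [pow_two, add_re, mul_re, zero_re] at hre
    have h3 : 3 * (a.im * a.im) < a.re * a.re := by
      have : (√3 * |a.im|) * (√3 * |a.im|) < a.re * a.re :=
        mul_self_lt_mul_self (by positivity) ha'
      have e : (√3 * |a.im|) * (√3 * |a.im|) = 3 * (a.im * a.im) := by
        rw [mul_mul_mul_comm, sqrt3_sq, abs_mul_abs_self]
      linarith
    have h4 : 3 * (b.im * b.im) < b.re * b.re := by
      have : (√3 * |b.im|) * (√3 * |b.im|) < b.re * b.re :=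
        mul_self_lt_mul_self (by positivity) hb'
      have e : (√3 * |b.im|) * (√3 * |b.im|) = 3 * (b.im * b.im) := by
        rw [mul_mul_mul_comm, sqrt3_sq, abs_mul_abs_self]
      linarith
    nlinarith [mul_pos ha0 hb0, sq_nonneg (a.im + b.im), sq_nonneg (a.im - b.im),
      sq_nonneg (a.re - b.re)]

lemma W_Z {w : ℂ} (hw : w ∈ S) : W (Z w) = w := by
  apply cube_inj (W_mem (Z_mem hw)) hw
  rw [W_cube (Z_mem hw)]
  unfold Z
  have h := cube_add_one_ne hw
  have h2 : (1:ℂ) - (w ^ 3 - 1) / (w ^ 3 + 1) = 2 / (w ^ 3 + 1) := by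
    field_simp
    ring
  rw [h2]
  field_simp
  ring

lemma differentiableAt_Z {w : ℂ} (hw : w ∈ S) : DifferentiableAt ℂ Z w := by
  unfold Z
  have := cube_add_one_ne hw
  fun_prop (disch := assumption)

lemma differentiableAt_W {z : ℂ} (hz : z ∈ ball (0:ℂ) 1) : DifferentiableAt ℂ W z := by
  unfold W
  have h1 := one_sub_ne hz
  apply DifferentiableAt.cpow
  · fun_prop (disch := assumption)
  · fun_prop
  · exact Or.inl (invCayley_re_pos hz)

lemma W_zero : W 0 = 1 := by
  unfold W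
  simp

end Pool.Agent.Lib.MP_48d627_an
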