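import Mathlib

/-! A harmonic-type majorant of `|g|²` for `g` in the Hardy space. -/

open Complex Metric Set MeasureTheory Filter Topology
open scoped ENNReal Real

namespace Pool.Agent.Lib.MP_48d627_an

/-- Poisson kernel of the unit disc. -/
noncomputable def P (t : ℝ) (z : ℂ) : ℝ := (1 - ‖z‖ ^ 2) / ‖circleMap 0 1 t - z‖ ^ 2

lemma norm_circle (t : ℝ) : ‖circleMap (0:ℂ) 1 t‖ = 1 := by simp

lemma circle_sub_pos {z : ℂ} (hz : z ∈ ball (0:ℂ) 1) (t : ℝ) : 0 < ‖circleMap (0:ℂ) 1 t - z‖ := by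
  have h1 := norm_circle t
  have h2 : ‖z‖ < 1 := by simpa using hz
  have := norm_sub_norm_le (circleMap (0:ℂ) 1 t) z
  linarith

lemma P_nonneg {z : ℂ} (hz : z ∈ ball (0:ℂ) 1) (t : ℝ) : 0 ≤ P t z := by
  unfold P
  have h2 : ‖z‖ < 1 := by simpa using hz
  have : 0 ≤ 1 - ‖z‖ ^ 2 := by nlinarith [norm_nonneg z]
  positivity

lemma P_le {z : ℂ} (hz : z ∈ ball (0:ℂ) 1) (t : ℝ) : P t z ≤ (1 + ‖z‖) / (1 - ‖z‖) := by
  unfold P
  have h2 : ‖z‖ < 1 := by simpa using hz
  have h0 := norm_nonneg z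
  have h3 : 1 - ‖z‖ ≤ ‖circleMap (0:ℂ) 1 t - z‖ := by
    have h1 := norm_circle t
    have := norm_sub_norm_le (circleMap (0:ℂ) 1 t) z
    linarith
  have h4 : (1 - ‖z‖) ^ 2 ≤ ‖circleMap (0:ℂ) 1 t - z‖ ^ 2 := by
    apply pow_le_pow_left₀ (by linarith) h3
  have h5 : 0 < (1 - ‖z‖) ^ 2 := by
    have : 0 < 1 - ‖z‖ := by linarith
    positivity
  have h6 : 0 ≤ 1 - ‖z‖ ^ 2 := by nlinarith
  calc (1 - ‖z‖ ^ 2) / ‖circleMap (0:ℂ) 1 t - z‖ ^ 2 ≤ (1 - ‖z‖ ^ 2) / (1 - ‖z‖) ^ 2 :=
        div_le_div_of_nonneg_left h6 h5 h4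
    _ = (1 + ‖z‖) / (1 - ‖z‖) := by
        have : 1 - ‖z‖ ≠ 0 := by linarith
        field_simp
        ring

lemma P_eq_poissonKernel (t : ℝ) (z : ℂ) : P t z = poissonKernel 0 z (circleMap 0 1 t) := by
  unfold P poissonKernel
  simp

/-- radii tending to `1` -/
noncomputable def rho (n : ℕ) : ℝ := (n + 1) / (n + 2)

lemma rho_pos (n : ℕ) : 0 < rho n := by unfold rho; positivity

lemma rho_lt (n : ℕ) : rho n < 1 := by
  unfold rho
  rw [div_lt_one (by positivity)]
  linarith

lemma tendsto_rho : Tendsto rho atTop (𝓝 1) := by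
  have h : rho = fun n : ℕ => 1 - 1 / ((n:ℝ) + 2) := by
    ext n
    unfold rho
    have : (n:ℝ) + 2 ≠ 0 := by positivity
    field_simp
    ring
  rw [h]
  have h1 : Tendsto (fun n : ℕ => 1 / ((n:ℝ) + 2)) atTop (𝓝 0) := by
    have h2 := tendsto_one_div_add_atTop_nhds_zero_nat (𝕜 := ℝ)
    have h3 := (tendsto_add_atTop_iff_nat 1).mpr h2
    refine h3.congr (fun n => ?_)
    push_cast
    congr 1
    ring
  simpa using h1.const_sub 1

/-- Poisson integral of `|g|²` on the circle of radius `rho n` (times `2π`) -/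
noncomputable def UU (g : ℂ → ℂ) (n : ℕ) (z : ℂ) : ℝ≥0∞ :=
  ∫⁻ t in Ioc 0 (2 * π), ENNReal.ofReal (P t z * ‖g (rho n * circleMap 0 1 t)‖ ^ 2)

/-- the majorant -/
noncomputable def U (g : ℂ → ℂ) (z : ℂ) : ℝ≥0∞ := liminf (fun n => UU g n z) atTop

/-- the Hardy space condition with explicit bound -/
def HB (g : ℂ → ℂ) (M : ℝ) : Prop :=
  ∀ r : ℝ, 0 ≤ r → r < 1 → ∫ t in (0:ℝ)..(2 * π), ‖g (circleMap 0 r t)‖ ^ 2 ≤ M

lemma rho_circle (n : ℕ) (t : ℝ) : (rho n : ℂ) * circleMap 0 1 t = circleMap 0 (rho n) t := by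
  simp [circleMap]

lemma circle_mem {r : ℝ} (h0 : 0 ≤ r) (h1 : r < 1) (t : ℝ) : circleMap (0:ℂ) r t ∈ ball (0:ℂ) 1 := by
  simp [abs_of_nonneg h0, h1]

lemma continuous_g_circle {g : ℂ → ℂ} (hg : DifferentiableOn ℂ g (ball 0 1)) {r : ℝ} (h0 : 0 ≤ r)
    (h1 : r < 1) : Continuous fun t : ℝ => g (circleMap 0 r t) := by
  have h : ContinuousOn g (ball 0 1) := hg.continuousOn
  exact h.comp_continuous (continuous_circleMap 0 r) (fun t => circle_mem h0 h1 t)

lemma continuous_P {z : ℂ} (hz : z ∈ ball (0:ℂ) 1) : Continuous fun t => P t z := by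
  unfold P
  apply Continuous.div continuous_const
  · have := continuous_circleMap (0:ℂ) 1
    fun_prop
  · intro t
    have := circle_sub_pos hz t
    positivity

lemma measurable_P : Measurable fun q : ℝ × ℂ => P q.1 q.2 := by
  unfold P
  have h : Measurable fun q : ℝ × ℂ => circleMap (0:ℂ) 1 q.1 :=
    (continuous_circleMap (0:ℂ) 1).measurable.comp measurable_fst
  apply Measurable.div
  · fun_prop
  · fun_prop

lemma UU_eq {g : ℂ → ℂ} (hg : DifferentiableOn ℂ g (ball 0 1)) (n : ℕ) {z : ℂ}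
    (hz : z ∈ ball (0:ℂ) 1) :
    UU g n z = ENNReal.ofReal (∫ t in (0:ℝ)..(2 * π), P t z * ‖g (rho n * circleMap 0 1 t)‖ ^ 2) := by
  unfold UU
  rw [intervalIntegral.integral_of_le (by positivity)]
  rw [ofReal_integral_eq_lintegral_ofReal]
  · have hc : Continuous fun t => P t z * ‖g (rho n * circleMap 0 1 t)‖ ^ 2 := by
      simp only [rho_circle]
      have h1 := continuous_g_circle hg (rho_pos n).le (rho_lt n)
      have h2 := continuous_P hz
      exact h2.mul (h1.norm.pow 2)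
    exact (hc.integrableOn_Icc (a := 0) (b := 2 * π)).mono_set Ioc_subset_Icc_self
  · filter_upwards with t
    have := P_nonneg hz t
    positivity

lemma UU_ge {g : ℂ → ℂ} (hg : DifferentiableOn ℂ g (ball 0 1)) (n : ℕ) {z : ℂ}
    (hz : z ∈ ball (0:ℂ) 1) :
    ENNReal.ofReal (2 * π * ‖g (rho n * z)‖ ^ 2) ≤ UU g n z := by
  rw [UU_eq hg n hz]
  apply ENNReal.ofReal_le_ofReal
  have hmaps : ∀ ζ ∈ closedBall (0:ℂ) 1, (rho n : ℂ) * ζ ∈ ball (0:ℂ) 1 := by
    intro ζ hζ
    rw [mem_closedBall_zero_iff] at hζ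
    rw [mem_ball_zero_iff, norm_mul, Complex.norm_real, Real.norm_eq_abs, abs_of_pos (rho_pos n)]
    have := rho_lt n
    have := rho_pos n
    nlinarith
  have hd : DiffContOnCl ℂ (fun ζ => g (rho n * ζ) ^ 2) (ball 0 1) := by
    apply DifferentiableOn.diffContOnCl
    rw [closure_ball 0 one_ne_zero]
    apply DifferentiableOn.pow
    apply DifferentiableOn.comp hg (by fun_prop) hmaps
  have hp := hd.circleAverage_poissonKernel_smul hz
  rw [Real.circleAverage_def] at hp
  have h1 : ‖g (rho n * z)‖ ^ 2 = ‖(2 * π)⁻¹ • ∫ θ in (0:ℝ)..2 * π,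
      (poissonKernel 0 z • fun ζ => g (rho n * ζ) ^ 2) (circleMap 0 1 θ)‖ := by
    rw [hp, norm_pow]
  rw [h1, norm_smul, Real.norm_eq_abs, abs_of_pos (by positivity)]
  rw [← mul_assoc, mul_inv_cancel₀ (by positivity), one_mul]
  refine (intervalIntegral.norm_integral_le_integral_norm (by positivity)).trans_eq ?_
  apply intervalIntegral.integral_congr
  intro t _
  simp only [Pi.smul_apply', norm_smul, norm_pow, Real.norm_eq_abs]
  rw [← P_eq_poissonKernel, abs_of_nonneg (P_nonneg hz t)]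

lemma le_U {g : ℂ → ℂ} (hg : DifferentiableOn ℂ g (ball 0 1)) {z : ℂ} (hz : z ∈ ball (0:ℂ) 1) :
    ENNReal.ofReal (2 * π * ‖g z‖ ^ 2) ≤ U g z := by
  have hc : ContinuousAt g z := (hg.differentiableAt (isOpen_ball.mem_nhds hz)).continuousAt
  have h1 : Tendsto (fun n => (rho n : ℂ) * z) atTop (𝓝 z) := by
    have : Tendsto (fun n => (rho n : ℂ)) atTop (𝓝 ((1:ℝ):ℂ)) :=
      (Complex.continuous_ofReal.tendsto 1).comp tendsto_rho
    simpa using this.mul_const z
  have h2 : Tendsto (fun n => ENNReal.ofReal (2 * π * ‖g (rho n * z)‖ ^ 2)) atTop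
      (𝓝 (ENNReal.ofReal (2 * π * ‖g z‖ ^ 2))) := by
    apply ENNReal.tendsto_ofReal
    exact ((hc.tendsto.comp h1).norm.pow 2).const_mul _
  rw [← h2.liminf_eq]
  unfold U
  exact liminf_le_liminf (Eventually.of_forall fun n => UU_ge hg n hz)

lemma U_harnack (g : ℂ → ℂ) {z z' : ℂ}
    {c : ℝ} (hc : 0 ≤ c) (h : ∀ t, P t z' ≤ c * P t z) :
    U g z' ≤ ENNReal.ofReal c * U g z := by
  have h1 : ∀ n, UU g n z' ≤ ENNReal.ofReal c * UU g n z := by
    intro n
    unfold UU
    rw [← lintegral_const_mul' _ _ ENNReal.ofReal_ne_top]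
    apply lintegral_mono
    intro t
    simp only
    rw [← ENNReal.ofReal_mul hc]
    apply ENNReal.ofReal_le_ofReal
    rw [← mul_assoc]
    exact mul_le_mul_of_nonneg_right (h t) (by positivity)
  have hm : Monotone fun x : ℝ≥0∞ => ENNReal.ofReal c * x := fun a b hab => by
    simp only; gcongr
  have hcont : Continuous fun x : ℝ≥0∞ => ENNReal.ofReal c * x :=
    ENNReal.continuous_const_mul ENNReal.ofReal_ne_top
  unfold U
  have h2 := hm.map_liminf_of_continuousAt (fun n => UU g n z) (F := atTop) hcont.continuousAt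
  rw [h2]
  exact liminf_le_liminf (Eventually.of_forall fun n => h1 n)

lemma mean_P {Φ : ℂ → ℂ} (hΦ : DifferentiableOn ℂ Φ (ball 0 1))
    (hm : MapsTo Φ (ball 0 1) (ball 0 1)) {r : ℝ} (h0 : 0 ≤ r) (h1 : r < 1) (t : ℝ) :
    ∫ θ in (0:ℝ)..(2 * π), P t (Φ (circleMap 0 r θ)) = 2 * π * P t (Φ 0) := by
  set ξ := circleMap (0:ℂ) 1 t with hξ
  set h : ℂ → ℂ := fun z => (ξ + Φ z) / (ξ - Φ z) with hh
  have hne : ∀ z ∈ ball (0:ℂ) 1, ξ - Φ z ≠ 0 := by
    intro z hz
    have := circle_sub_pos (hm hz) t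
    exact norm_pos_iff.mp this
  have hre : ∀ z ∈ ball (0:ℂ) 1, (h z).re = P t (Φ z) := by
    intro z hz
    rw [P_eq_poissonKernel, poissonKernel_eq_re_herglotzRieszKernel]
    simp [hh, herglotzRieszKernel, hξ]
  have hd : DifferentiableOn ℂ h (ball 0 1) := by
    apply DifferentiableOn.div
    · exact (differentiableOn_const _).add hΦ
    · exact (differentiableOn_const _).sub hΦ
    · exact hne
  have hdc : DiffContOnCl ℂ h (ball 0 |r|) := by
    apply DifferentiableOn.diffContOnCl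
    apply hd.mono
    refine (closure_ball_subset_closedBall).trans ?_
    intro z hz
    rw [mem_closedBall_zero_iff, abs_of_nonneg h0] at hz
    rw [mem_ball_zero_iff]
    linarith
  have hav := hdc.circleAverage
  rw [Real.circleAverage_def] at hav
  have hcont : Continuous fun θ : ℝ => h (circleMap 0 r θ) :=
    hd.continuousOn.comp_continuous (continuous_circleMap 0 r) (fun t => circle_mem h0 h1 t)
  have h3 : ∫ θ in (0:ℝ)..(2 * π), h (circleMap 0 r θ) = (2 * π) • h 0 := by
    rw [← hav, smul_smul, mul_inv_cancel₀ (by positivity), one_smul]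
  have h4 : ∫ θ in (0:ℝ)..(2 * π), P t (Φ (circleMap 0 r θ)) =
      (∫ θ in (0:ℝ)..(2 * π), h (circleMap 0 r θ)).re := by
    have h5 := Complex.reCLM.intervalIntegral_comp_comm (hcont.intervalIntegrable 0 (2 * π)
      (μ := volume))
    simp only [Complex.reCLM_apply] at h5
    rw [← h5]
    apply intervalIntegral.integral_congr
    intro θ _
    exact (hre _ (circle_mem h0 h1 θ)).symm
  rw [h4, h3, Complex.real_smul, Complex.re_ofReal_mul, hre 0 (mem_ball_self one_pos)]

lemma measurable_UU_aux {g : ℂ → ℂ} (hg : DifferentiableOn ℂ g (ball 0 1)) (n : ℕ) {q : ℝ → ℂ}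
    (hq : Measurable q) :
    Measurable fun x : ℝ × ℝ => ENNReal.ofReal (P x.2 (q x.1) * ‖g (rho n * circleMap 0 1 x.2)‖ ^ 2) := by
  have e0 : Measurable fun x : ℝ × ℝ => (x.2, q x.1) :=
    measurable_snd.prodMk (hq.comp measurable_fst)
  have e1 : Measurable fun x : ℝ × ℝ => P x.2 (q x.1) :=
    Measurable.comp (g := fun y : ℝ × ℂ => P y.1 y.2) (f := fun x : ℝ × ℝ => (x.2, q x.1))
      measurable_P e0
  have e2 : Measurable fun x : ℝ × ℝ => ‖g (rho n * circleMap 0 1 x.2)‖ ^ 2 := by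
    simp only [rho_circle]
    have h1 := continuous_g_circle hg (rho_pos n).le (rho_lt n)
    have h3 : Measurable fun t : ℝ => ‖g (circleMap 0 (rho n) t)‖ ^ 2 :=
      (h1.norm.pow 2).measurable
    exact h3.comp (measurable_snd : Measurable (Prod.snd : ℝ × ℝ → ℝ))
  exact (e1.mul e2).ennreal_ofReal

/-- mean value inequality for the majorant along an analytic selfmap -/
lemma U_mean {g : ℂ → ℂ} (hg : DifferentiableOn ℂ g (ball 0 1)) {M : ℝ} (hM : HB g M)
    {Φ : ℂ → ℂ} (hΦ : DifferentiableOn ℂ Φ (ball 0 1))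
    (hm : MapsTo Φ (ball 0 1) (ball 0 1)) {r : ℝ} (h0 : 0 ≤ r) (h1 : r < 1) :
    ∫⁻ θ in Ioc 0 (2 * π), U g (Φ (circleMap 0 r θ)) ≤
      ENNReal.ofReal (2 * π * ((1 + ‖Φ 0‖) / (1 - ‖Φ 0‖)) * M) := by
  have hqc : Continuous fun θ : ℝ => Φ (circleMap 0 r θ) :=
    hΦ.continuousOn.comp_continuous (continuous_circleMap 0 r) (fun t => circle_mem h0 h1 t)
  have hΦ0 : Φ 0 ∈ ball (0:ℂ) 1 := hm (mem_ball_self one_pos)
  have hΦ0' : ‖Φ 0‖ < 1 := by simpa using hΦ0
  have hB : 0 ≤ (1 + ‖Φ 0‖) / (1 - ‖Φ 0‖) := by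
    have := norm_nonneg (Φ 0)
    apply div_nonneg <;> linarith
  unfold U
  calc ∫⁻ θ in Ioc 0 (2 * π), liminf (fun n => UU g n (Φ (circleMap 0 r θ))) atTop
      ≤ liminf (fun n => ∫⁻ θ in Ioc 0 (2 * π), UU g n (Φ (circleMap 0 r θ))) atTop := by
        apply lintegral_liminf_le
        intro n
        unfold UU
        exact (measurable_UU_aux hg n hqc.measurable).lintegral_prod_right'
    _ ≤ ENNReal.ofReal (2 * π * ((1 + ‖Φ 0‖) / (1 - ‖Φ 0‖)) * M) := by
        apply liminf_le_of_frequently_le'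
        apply Frequently.of_forall
        intro n
        unfold UU
        rw [lintegral_lintegral_swap (measurable_UU_aux hg n hqc.measurable).aemeasurable]
        have hin : ∀ t : ℝ, ∫⁻ θ in Ioc 0 (2 * π), ENNReal.ofReal
            (P t (Φ (circleMap 0 r θ)) * ‖g (rho n * circleMap 0 1 t)‖ ^ 2) =
            ENNReal.ofReal (2 * π * P t (Φ 0) * ‖g (rho n * circleMap 0 1 t)‖ ^ 2) := by
          intro t
          have hPc : Continuous fun θ : ℝ => P t (Φ (circleMap 0 r θ)) := by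
            unfold P
            apply Continuous.div
            · exact continuous_const.sub (hqc.norm.pow 2)
            · exact (continuous_const.sub hqc).norm.pow 2
            · intro θ
              have := circle_sub_pos (hm (circle_mem h0 h1 θ)) t
              positivity
          rw [← mean_P hΦ hm h0 h1 t, intervalIntegral.integral_of_le (by positivity),
            ← integral_mul_const, ofReal_integral_eq_lintegral_ofReal]
          · exact ((hPc.mul_const _).integrableOn_Icc (a := 0) (b := 2 * π)).mono_set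
              Ioc_subset_Icc_self
          · filter_upwards with θ
            have := P_nonneg (hm (circle_mem h0 h1 θ)) t
            positivity
        simp only [hin]
        have hgc : Continuous fun t : ℝ => ‖g (rho n * circleMap 0 1 t)‖ ^ 2 := by
          simp only [rho_circle]
          exact (continuous_g_circle hg (rho_pos n).le (rho_lt n)).norm.pow 2
        calc ∫⁻ t in Ioc 0 (2 * π), ENNReal.ofReal
              (2 * π * P t (Φ 0) * ‖g (rho n * circleMap 0 1 t)‖ ^ 2)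
            ≤ ∫⁻ t in Ioc 0 (2 * π), ENNReal.ofReal
              (2 * π * ((1 + ‖Φ 0‖) / (1 - ‖Φ 0‖)) * ‖g (rho n * circleMap 0 1 t)‖ ^ 2) := by
              apply lintegral_mono
              intro t
              apply ENNReal.ofReal_le_ofReal
              have := P_le hΦ0 t
              gcongr
          _ = ENNReal.ofReal (2 * π * ((1 + ‖Φ 0‖) / (1 - ‖Φ 0‖)) *
                ∫ t in (0:ℝ)..(2 * π), ‖g (rho n * circleMap 0 1 t)‖ ^ 2) := by
              rw [intervalIntegral.integral_of_le (by positivity), ← integral_const_mul,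
                ofReal_integral_eq_lintegral_ofReal]
              · exact ((continuous_const.mul hgc).integrableOn_Icc (a := 0) (b := 2 * π)).mono_set
                  Ioc_subset_Icc_self
              · filter_upwards with t
                positivity
          _ ≤ ENNReal.ofReal (2 * π * ((1 + ‖Φ 0‖) / (1 - ‖Φ 0‖)) * M) := by
              apply ENNReal.ofReal_le_ofReal
              have h5 := hM (rho n) (rho_pos n).le (rho_lt n)
              simp only [rho_circle]
              gcongr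

lemma U_le {g : ℂ → ℂ} (hg : DifferentiableOn ℂ g (ball 0 1)) {M : ℝ} (hM : HB g M) {z : ℂ}
    (hz : z ∈ ball (0:ℂ) 1) : U g z ≤ ENNReal.ofReal ((1 + ‖z‖) / (1 - ‖z‖) * M) := by
  have hz' : ‖z‖ < 1 := by simpa using hz
  unfold U
  apply liminf_le_of_frequently_le'
  apply Frequently.of_forall
  intro n
  rw [UU_eq hg n hz]
  apply ENNReal.ofReal_le_ofReal
  have hgc : Continuous fun t : ℝ => ‖g (rho n * circleMap 0 1 t)‖ ^ 2 := by
    simp only [rho_circle]
    exact (continuous_g_circle hg (rho_pos n).le (rho_lt n)).norm.pow 2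
  have hPc := continuous_P hz
  calc ∫ t in (0:ℝ)..(2 * π), P t z * ‖g (rho n * circleMap 0 1 t)‖ ^ 2
      ≤ ∫ t in (0:ℝ)..(2 * π), (1 + ‖z‖) / (1 - ‖z‖) * ‖g (rho n * circleMap 0 1 t)‖ ^ 2 := by
        apply intervalIntegral.integral_mono_on (by positivity)
        · exact (hPc.mul hgc).intervalIntegrable _ _
        · exact (continuous_const.mul hgc).intervalIntegrable _ _
        · intro t _
          have := P_le hz t
          gcongr
    _ = (1 + ‖z‖) / (1 - ‖z‖) * ∫ t in (0:ℝ)..(2 * π), ‖g (rho n * circleMap 0 1 t)‖ ^ 2 := by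
        rw [intervalIntegral.integral_const_mul]
    _ ≤ (1 + ‖z‖) / (1 - ‖z‖) * M := by
        have h5 := hM (rho n) (rho_pos n).le (rho_lt n)
        simp only [rho_circle]
        have hB : 0 ≤ (1 + ‖z‖) / (1 - ‖z‖) := by
          have := norm_nonneg z
          apply div_nonneg <;> linarith
        gcongr

lemma U_ne_top {g : ℂ → ℂ} (hg : DifferentiableOn ℂ g (ball 0 1)) {M : ℝ} (hM : HB g M) {z : ℂ}
    (hz : z ∈ ball (0:ℂ) 1) : U g z ≠ ∞ :=
  ((U_le hg hM hz).trans_lt ENNReal.ofReal_lt_top).ne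

end Pool.Agent.Lib.MP_48d627_an
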