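import Mathlib
import Pool.Agent.Lib.MP_48d627_an.Geo
import Pool.Agent.Lib.MP_48d627_an.Major

/-! Harnack inequality for the Poisson kernel in sector coordinates. -/

open Complex Metric Set MeasureTheory Filter Topology
open scoped ENNReal Real

namespace Pool.Agent.Lib.MP_48d627_an

/-- the shifted sector -/
def T : Set ℂ := {w | √3 * |w.im| + 12 < w.re}

lemma T_sub_S {w : ℂ} (hw : w ∈ T) : w ∈ S := by
  simp only [S, T, mem_ofPred_eq] at *
  linarith

lemma mem_T_of {w : ℂ} (hw : w ∈ S) : w + 12 ∈ T := by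
  simp only [S, T, mem_ofPred_eq, add_re, add_im] at *
  norm_num
  linarith

lemma convex_T : Convex ℝ T := by
  have h : T = (fun w : ℂ => w + (-12)) ⁻¹' S := by
    ext w
    simp only [T, S, mem_ofPred_eq, mem_preimage, add_re, add_im, neg_re, neg_im]
    constructor <;> intro h <;> norm_num at h ⊢ <;> linarith
  rw [h]
  exact convex_S.affine_preimage ((AffineMap.id ℝ ℂ) + AffineMap.const ℝ ℂ (-12))

lemma T_bound {w : ℂ} (hw : w ∈ T) : 3 * ‖w‖ ^ 2 ≤ 1 / 3 * (w ^ 3).re := by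
  have hS := T_sub_S hw
  have h0 := S_re_pos hS
  have h1 : √3 * |w.im| + 12 < w.re := hw
  have h2 : ‖w‖ ^ 2 = w.re ^ 2 + w.im ^ 2 := by
    rw [← Complex.normSq_eq_norm_sq, Complex.normSq_apply]; ring
  have h3 : 3 * w.im ^ 2 ≤ w.re ^ 2 := by
    have : (√3 * |w.im|) ^ 2 ≤ w.re ^ 2 := by
      apply pow_le_pow_left₀ (by positivity)
      linarith
    rw [mul_pow, Real.sq_sqrt (by norm_num), sq_abs] at this
    exact this
  rw [cube_re, h2]
  have h4 : 0 ≤ √3 * |w.im| := by positivity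
  have h5 : w.re * 12 * w.re ≤ w.re * (w.re - √3 * |w.im|) * (w.re + √3 * |w.im|) := by
    apply mul_le_mul
    · apply mul_le_mul_of_nonneg_left _ h0.le
      linarith
    · linarith
    · exact h0.le
    · apply mul_nonneg h0.le
      linarith
  nlinarith

lemma key1 (ξ p : ℂ) (hξ : ‖ξ‖ = 1) (hp : 0 < p.re) :
    (‖ξ - 1‖ * p.re) ^ 2 ≤ ‖(ξ - 1) * p + (ξ + 1)‖ ^ 2 := by
  have h1 : ξ.re ^ 2 + ξ.im ^ 2 = 1 := by
    have : ‖ξ‖ ^ 2 = 1 := by rw [hξ]; norm_num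
    rw [← Complex.normSq_eq_norm_sq, Complex.normSq_apply] at this
    nlinarith
  rw [mul_pow, ← Complex.normSq_eq_norm_sq, ← Complex.normSq_eq_norm_sq, Complex.normSq_apply,
    Complex.normSq_apply]
  simp only [sub_re, one_re, sub_im, one_im, sub_zero, add_re, mul_re, add_im, mul_im, add_zero]
  set c := ξ.re
  set s := ξ.im
  set x := p.re
  set y := p.im
  have key : ((c - 1) * x - s * y + (c + 1)) * ((c - 1) * x - s * y + (c + 1)) +
      ((c - 1) * y + s * x + s) * ((c - 1) * y + s * x + s) -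
      ((c - 1) * (c - 1) + s * s) * x ^ 2 = (2 - 2 * c) * y ^ 2 - 4 * s * y + (2 + 2 * c) := by
    linear_combination (y ^ 2 + 1 + 2 * x) * h1
  have hc : c ≤ 1 := by nlinarith [sq_nonneg s, sq_nonneg (c - 1)]
  have hnn : 0 ≤ (2 - 2 * c) * y ^ 2 - 4 * s * y + (2 + 2 * c) := by
    rcases hc.lt_or_eq with hc' | hc'
    · have h2 : 0 < 2 - 2 * c := by linarith
      have h3 : (2 - 2 * c) * ((2 - 2 * c) * y ^ 2 - 4 * s * y + (2 + 2 * c)) =
          ((2 - 2 * c) * y - 2 * s) ^ 2 := by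
        linear_combination (-4) * h1
      by_contra hcon
      push Not at hcon
      have h4 : (2 - 2 * c) * ((2 - 2 * c) * y ^ 2 - 4 * s * y + (2 + 2 * c)) < 0 :=
        mul_neg_of_pos_of_neg h2 hcon
      rw [h3] at h4
      linarith [sq_nonneg ((2 - 2 * c) * y - 2 * s)]
    · have hs : s = 0 := by
        rw [hc'] at h1
        have : s ^ 2 = 0 := by linarith
        exact pow_eq_zero_iff (by norm_num) |>.mp this
      rw [hc', hs]
      norm_num
  linarith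

lemma P_Z {w : ℂ} (hw : w ∈ S) (t : ℝ) :
    P t (Z w) = 4 * ((w ^ 3).re / ‖(circleMap 0 1 t - 1) * w ^ 3 + (circleMap 0 1 t + 1)‖ ^ 2) := by
  unfold P Z
  have h1 := cube_add_one_ne hw
  set p := w ^ 3
  set ξ := circleMap (0:ℂ) 1 t
  have h2 : ξ - (p - 1) / (p + 1) = ((ξ - 1) * p + (ξ + 1)) / (p + 1) := by
    field_simp
    ring
  have h3 : (1:ℝ) - ‖(p - 1) / (p + 1)‖ ^ 2 = 4 * p.re / ‖p + 1‖ ^ 2 := by
    have h4 : ‖p + 1‖ ^ 2 ≠ 0 := by
      have : ‖p + 1‖ ≠ 0 := norm_ne_zero_iff.mpr h1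
      positivity
    rw [norm_div, div_pow, eq_div_iff h4, sub_mul, div_mul_cancel₀ _ h4, one_mul,
      ← Complex.normSq_eq_norm_sq, ← Complex.normSq_eq_norm_sq, Complex.normSq_apply,
      Complex.normSq_apply]
    simp only [sub_re, one_re, sub_im, one_im, sub_zero, add_re, add_im, add_zero]
    ring
  rw [h2, h3, norm_div, div_pow]
  have h4 : ‖p + 1‖ ^ 2 ≠ 0 := by
    have : ‖p + 1‖ ≠ 0 := norm_ne_zero_iff.mpr h1
    positivity
  rw [div_div_div_cancel_right₀ h4]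
  ring

lemma harnack {w w' : ℂ} (hw : w ∈ T) (hw' : w' ∈ T) (t : ℝ) :
    P t (Z w') ≤ Real.exp ‖w' - w‖ * P t (Z w) := by
  rw [P_Z (T_sub_S hw), P_Z (T_sub_S hw')]
  set ξ := circleMap (0:ℂ) 1 t with hξ
  have hξ1 : ‖ξ‖ = 1 := by simp [hξ]
  set d := ‖w' - w‖ with hd
  set γ : ℝ → ℂ := fun x => w + x * (w' - w) with hγ
  have hγT : ∀ x ∈ Icc (0:ℝ) 1, γ x ∈ T := by
    intro x hx
    have := convex_T hw hw' (sub_nonneg.mpr hx.2) hx.1 (by ring)
    convert this using 1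
    simp only [hγ, real_smul]
    push_cast
    ring
  set q : ℝ → ℂ := fun x => (ξ - 1) * (γ x) ^ 3 + (ξ + 1) with hq
  have hγd : ∀ x : ℝ, HasDerivAt γ (w' - w) x := by
    intro x
    have h1 : HasDerivAt (fun x : ℝ => (x : ℂ)) 1 x := Complex.ofRealCLM.hasDerivAt
    have h2 := (h1.mul_const (w' - w)).const_add w
    rw [one_mul] at h2
    exact h2
  have hpd : ∀ x : ℝ, HasDerivAt (fun x => (γ x) ^ 3) (3 * (γ x) ^ 2 * (w' - w)) x := by
    intro x
    have h := (hγd x).fun_pow 3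
    simpa using h
  have hRd : ∀ x : ℝ, HasDerivAt (fun x => ((γ x) ^ 3).re) (3 * (γ x) ^ 2 * (w' - w)).re x := by
    intro x
    exact (Complex.reCLM.hasFDerivAt.comp_hasDerivAt x (hpd x))
  have hqd : ∀ x : ℝ, HasDerivAt q ((ξ - 1) * (3 * (γ x) ^ 2 * (w' - w))) x := by
    intro x
    exact ((hpd x).const_mul (ξ - 1)).add_const (ξ + 1)
  have hNd : ∀ x : ℝ, HasDerivAt (fun x => ‖q x‖ ^ 2)
      (2 * inner ℝ (q x) ((ξ - 1) * (3 * (γ x) ^ 2 * (w' - w)))) x := by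
    intro x
    exact (hqd x).norm_sq
  have hRpos : ∀ x ∈ Icc (0:ℝ) 1, 0 < ((γ x) ^ 3).re := fun x hx =>
    cube_re_pos (T_sub_S (hγT x hx))
  have hqpos : ∀ x ∈ Icc (0:ℝ) 1, 0 < ‖q x‖ := by
    intro x hx
    rw [norm_pos_iff]
    intro h0
    have h1 := circle_sub_pos (Z_mem (T_sub_S (hγT x hx))) t
    have h2 := cube_add_one_ne (T_sub_S (hγT x hx))
    have h3 : ξ - Z (γ x) = q x / ((γ x) ^ 3 + 1) := by
      simp only [Z, hq]
      field_simp
      ring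
    rw [← hξ, h3, h0] at h1
    simp at h1
  set h : ℝ → ℝ := fun x => Real.exp (-(d * x)) * (((γ x) ^ 3).re / ‖q x‖ ^ 2) with hh
  have hhd : ∀ x ∈ Icc (0:ℝ) 1, HasDerivAt h
      (Real.exp (-(d * x)) * (-(d * 1)) * (((γ x) ^ 3).re / ‖q x‖ ^ 2) + Real.exp (-(d * x)) *
        (((3 * (γ x) ^ 2 * (w' - w)).re * ‖q x‖ ^ 2 - ((γ x) ^ 3).re *
          (2 * inner ℝ (q x) ((ξ - 1) * (3 * (γ x) ^ 2 * (w' - w))))) / (‖q x‖ ^ 2) ^ 2)) x := by
    intro x hx
    have h1 : HasDerivAt (fun x : ℝ => Real.exp (-(d * x))) (Real.exp (-(d * x)) * (-(d * 1))) x :=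
      (((hasDerivAt_id x).const_mul d).neg).exp
    have h2 := (hRd x).div (hNd x) (by have := hqpos x hx; positivity)
    exact h1.mul h2
  have hanti : AntitoneOn h (Icc 0 1) := by
    apply antitoneOn_of_deriv_nonpos (convex_Icc 0 1)
    · intro x hx
      exact (hhd x hx).continuousAt.continuousWithinAt
    · intro x hx
      rw [interior_Icc] at hx
      exact (hhd x ⟨hx.1.le, hx.2.le⟩).differentiableAt.differentiableWithinAt
    · intro x hx
      rw [interior_Icc] at hx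
      have hx' : x ∈ Icc (0:ℝ) 1 := ⟨hx.1.le, hx.2.le⟩
      rw [(hhd x hx').deriv]
      have hR := hRpos x hx'
      have hq' := hqpos x hx'
      set R := ((γ x) ^ 3).re with hRdef
      have hb := T_bound (hγT x hx')
      have hd0 : 0 ≤ d := norm_nonneg _
      -- bounds on derivatives
      have hn : ‖3 * (γ x) ^ 2 * (w' - w)‖ ≤ 1 / 3 * R * d := by
        rw [norm_mul, norm_mul, norm_pow]
        have : ‖(3:ℂ)‖ = 3 := by simp
        rw [this]
        exact mul_le_mul_of_nonneg_right hb hd0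
      have h1 : (3 * (γ x) ^ 2 * (w' - w)).re ≤ 1 / 3 * R * d :=
        (Complex.re_le_norm _).trans hn
      have h2 : -(1 / 3 * d * ‖q x‖ ^ 2) ≤ inner ℝ (q x) ((ξ - 1) * (3 * (γ x) ^ 2 * (w' - w))) := by
        have h3 := abs_real_inner_le_norm (q x) ((ξ - 1) * (3 * (γ x) ^ 2 * (w' - w)))
        have h4 : ‖(ξ - 1) * (3 * (γ x) ^ 2 * (w' - w))‖ ≤ 1 / 3 * d * ‖q x‖ := by
          rw [norm_mul]
          have h5 : ‖ξ - 1‖ * R ≤ ‖q x‖ := by
            have := key1 ξ ((γ x) ^ 3) hξ1 hR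
            exact (pow_le_pow_iff_left₀ (by positivity) (norm_nonneg _) (by norm_num)).mp this
          calc ‖ξ - 1‖ * ‖3 * (γ x) ^ 2 * (w' - w)‖ ≤ ‖ξ - 1‖ * (1 / 3 * R * d) := by gcongr
            _ = 1 / 3 * d * (‖ξ - 1‖ * R) := by ring
            _ ≤ 1 / 3 * d * ‖q x‖ := by gcongr
        have h6 : |inner ℝ (q x) ((ξ - 1) * (3 * (γ x) ^ 2 * (w' - w)))| ≤
            1 / 3 * d * ‖q x‖ ^ 2 := by
          refine h3.trans ?_
          calc ‖q x‖ * ‖(ξ - 1) * (3 * (γ x) ^ 2 * (w' - w))‖ ≤ ‖q x‖ * (1 / 3 * d * ‖q x‖) := by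
                gcongr
            _ = 1 / 3 * d * ‖q x‖ ^ 2 := by ring
        exact (abs_le.mp h6).1
      set I1 := inner ℝ (q x) ((ξ - 1) * (3 * (γ x) ^ 2 * (w' - w)))
      set D1 := (3 * (γ x) ^ 2 * (w' - w)).re
      set N := ‖q x‖ ^ 2 with hN
      have hNpos : 0 < N := by positivity
      have h7 : (D1 * N - R * (2 * I1)) / N ^ 2 ≤ d * (R / N) := by
        rw [div_le_iff₀ (by positivity)]
        have e1 : d * (R / N) * N ^ 2 = d * R * N := by
          field_simp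
        rw [e1]
        nlinarith [mul_le_mul_of_nonneg_right h1 hNpos.le, mul_le_mul_of_nonneg_left h2 hR.le]
      have he := Real.exp_pos (-(d * x))
      nlinarith [mul_le_mul_of_nonneg_left h7 he.le]
  have hfin := hanti (left_mem_Icc.mpr zero_le_one) (right_mem_Icc.mpr zero_le_one) zero_le_one
  simp only [hh, hγ, hq] at hfin
  simp only [mul_one, ofReal_one, one_mul, add_sub_cancel, mul_zero, neg_zero, Real.exp_zero,
    ofReal_zero, zero_mul, add_zero] at hfin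
  have he := Real.exp_pos d
  have h8 : ((w' ^ 3).re / ‖(ξ - 1) * w' ^ 3 + (ξ + 1)‖ ^ 2) ≤
      Real.exp d * ((w ^ 3).re / ‖(ξ - 1) * w ^ 3 + (ξ + 1)‖ ^ 2) := by
    have h9 := mul_le_mul_of_nonneg_left hfin he.le
    rw [← mul_assoc, ← Real.exp_add, add_neg_cancel, Real.exp_zero, one_mul] at h9
    exact h9
  calc 4 * ((w' ^ 3).re / ‖(ξ - 1) * w' ^ 3 + (ξ + 1)‖ ^ 2)
      ≤ 4 * (Real.exp d * ((w ^ 3).re / ‖(ξ - 1) * w ^ 3 + (ξ + 1)‖ ^ 2)) := by gcongr
    _ = Real.exp d * (4 * ((w ^ 3).re / ‖(ξ - 1) * w ^ 3 + (ξ + 1)‖ ^ 2)) := by ring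

/-- amplitude function on the sector -/
noncomputable def A (g : ℂ → ℂ) (w : ℂ) : ℝ := √((U g (Z (w + 12))).toReal)

lemma A_nonneg (g : ℂ → ℂ) (w : ℂ) : 0 ≤ A g w := Real.sqrt_nonneg _

lemma A_harnack {g : ℂ → ℂ} (hg : DifferentiableOn ℂ g (ball 0 1)) {M : ℝ} (hM : HB g M) {w w' : ℂ}
    (hw : w ∈ S) (hw' : w' ∈ S) : A g w' ≤ Real.exp (‖w' - w‖ / 2) * A g w := by
  unfold A
  have h1 := mem_T_of hw
  have h2 := mem_T_of hw'
  have h3 : U g (Z (w' + 12)) ≤ ENNReal.ofReal (Real.exp ‖w' - w‖) * U g (Z (w + 12)) := by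
    apply U_harnack g (Real.exp_pos _).le
    intro t
    have := harnack h1 h2 t
    simpa using this
  have h4 := U_ne_top hg hM (Z_mem (T_sub_S h1))
  have h5 : (U g (Z (w' + 12))).toReal ≤ Real.exp ‖w' - w‖ * (U g (Z (w + 12))).toReal := by
    have := ENNReal.toReal_mono (ENNReal.mul_ne_top ENNReal.ofReal_ne_top h4) h3
    rwa [ENNReal.toReal_mul, ENNReal.toReal_ofReal (Real.exp_pos _).le] at this
  calc √(U g (Z (w' + 12))).toReal ≤ √(Real.exp ‖w' - w‖ * (U g (Z (w + 12))).toReal) :=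
        Real.sqrt_le_sqrt h5
    _ = Real.exp (‖w' - w‖ / 2) * √(U g (Z (w + 12))).toReal := by
        rw [Real.sqrt_mul (Real.exp_pos _).le]
        congr 1
        rw [Real.sqrt_eq_iff_mul_self_eq (Real.exp_pos _).le (Real.exp_pos _).le, ← Real.exp_add]
        congr 1
        ring

/-- `|g|` is bounded by the amplitude -/
lemma norm_le_A {g : ℂ → ℂ} (hg : DifferentiableOn ℂ g (ball 0 1)) {M : ℝ} (hM : HB g M) {w : ℂ}
    (hw : w ∈ S) : ‖g (Z (w + 12))‖ ≤ A g w := by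
  have h1 := Z_mem (T_sub_S (mem_T_of hw))
  have h2 := le_U hg h1
  have h3 := U_ne_top hg hM h1
  unfold A
  apply Real.le_sqrt_of_sq_le
  have h4 : 2 * π * ‖g (Z (w + 12))‖ ^ 2 ≤ (U g (Z (w + 12))).toReal :=
    (ENNReal.ofReal_le_iff_le_toReal h3).mp h2
  have h5 : 1 ≤ 2 * π := by linarith [Real.pi_gt_three]
  nlinarith [sq_nonneg ‖g (Z (w + 12))‖]

end Pool.Agent.Lib.MP_48d627_an
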