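import Mathlib
import Pool.Agent.Lib.MP_48d627_an.Geo

/-! Ray integrals and the kernel `K s = exp s / sin (π s) ^ 2`. -/

open Complex Metric Set MeasureTheory Filter Topology
open scoped ENNReal Real

namespace Pool.Agent.Lib.MP_48d627_an

lemma integrable_exp_neg_const (C a : ℝ) (ha : 0 < a) :
    IntegrableOn (fun r : ℝ => C * Real.exp (-(a * r))) (Ioi 0) := by
  have := (integrableOn_exp_mul_Ioi (show -a < 0 by linarith) 0).const_mul C
  simpa [neg_mul, IntegrableOn] using this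

/-- the ray integral of a decaying analytic function is a primitive of its negative -/
lemma ray_deriv (Ψ : ℂ → ℂ) (d ζ₀ : ℂ) {ε C : ℝ} (hε : 0 < ε)
    (hΨ : ∀ ζ ∈ ball ζ₀ ε, ∀ r : ℝ, 0 ≤ r → DifferentiableAt ℂ Ψ (ζ + r * d))
    (hb : ∀ ζ ∈ ball ζ₀ ε, ∀ r : ℝ, 0 ≤ r → ‖Ψ (ζ + r * d)‖ ≤ C * Real.exp (-(1 * r)))
    (hb' : ∀ ζ ∈ ball ζ₀ ε, ∀ r : ℝ, 0 ≤ r → ‖deriv Ψ (ζ + r * d)‖ ≤ C * Real.exp (-(1 * r))) :
    HasDerivAt (fun ζ => ∫ r in Ioi (0:ℝ), Ψ (ζ + r * d) * d) (-Ψ ζ₀) ζ₀ := by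
  have hmeas : ∀ ζ ∈ ball ζ₀ ε, AEStronglyMeasurable (fun r : ℝ => Ψ (ζ + r * d) * d)
      (volume.restrict (Ioi 0)) := by
    intro ζ hζ
    have hc : ContinuousOn (fun r : ℝ => Ψ (ζ + r * d) * d) (Ioi 0) := by
      intro r hr
      have h1 : ContinuousAt Ψ (ζ + r * d) := (hΨ ζ hζ r (le_of_lt hr)).continuousAt
      have h2 : ContinuousAt (fun r : ℝ => ζ + r * d) r := by fun_prop
      exact ((ContinuousAt.comp (f := fun r : ℝ => ζ + r * d) h1 h2).mul
        continuousAt_const).continuousWithinAt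
    exact hc.aestronglyMeasurable measurableSet_Ioi
  have hmeas' : AEStronglyMeasurable (fun r : ℝ => deriv Ψ (ζ₀ + r * d) * d)
      (volume.restrict (Ioi 0)) := by
    have h1 : Measurable (deriv Ψ) := measurable_deriv Ψ
    have h2 : Measurable fun r : ℝ => ζ₀ + r * d := by fun_prop
    exact ((h1.comp h2).mul_const d).aestronglyMeasurable
  have hbi : Integrable (fun r : ℝ => C * Real.exp (-(1 * r)) * ‖d‖) (volume.restrict (Ioi 0)) :=
    (integrable_exp_neg_const C 1 one_pos).mul_const _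
  have hζ₀ : ζ₀ ∈ ball ζ₀ ε := mem_ball_self hε
  have hint : Integrable (fun r : ℝ => Ψ (ζ₀ + r * d) * d) (volume.restrict (Ioi 0)) := by
    apply hbi.mono' (hmeas ζ₀ hζ₀)
    filter_upwards [ae_restrict_mem measurableSet_Ioi] with r hr
    rw [norm_mul]
    exact mul_le_mul_of_nonneg_right (hb ζ₀ hζ₀ r (le_of_lt hr)) (norm_nonneg _)
  have hchain : ∀ ζ ∈ ball ζ₀ ε, ∀ r : ℝ, 0 ≤ r →
      HasDerivAt (fun ζ => Ψ (ζ + r * d) * d) (deriv Ψ (ζ + r * d) * d) ζ := by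
    intro ζ hζ r hr
    have h1 : HasDerivAt Ψ (deriv Ψ (ζ + r * d)) (ζ + r * d) := (hΨ ζ hζ r hr).hasDerivAt
    have h2 : HasDerivAt (fun ζ : ℂ => ζ + r * d) 1 ζ := (hasDerivAt_id ζ).add_const _
    have h3 := HasDerivAt.comp ζ h1 h2
    rw [mul_one] at h3
    exact h3.mul_const d
  have main := hasDerivAt_integral_of_dominated_loc_of_deriv_le (μ := volume.restrict (Ioi (0:ℝ)))
    (F := fun (ζ : ℂ) (r : ℝ) => Ψ (ζ + r * d) * d) (F' := fun ζ r => deriv Ψ (ζ + r * d) * d)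
    (x₀ := ζ₀) (s := ball ζ₀ ε)
    (bound := fun r : ℝ => C * Real.exp (-(1 * r)) * ‖d‖) (ball_mem_nhds ζ₀ hε)
    (by filter_upwards [ball_mem_nhds ζ₀ hε] with ζ hζ using hmeas ζ hζ)
    hint hmeas'
    (by
      filter_upwards [ae_restrict_mem measurableSet_Ioi] with r hr
      intro ζ hζ
      rw [norm_mul]
      exact mul_le_mul_of_nonneg_right (hb' ζ hζ r (le_of_lt hr)) (norm_nonneg _))
    hbi
    (by
      filter_upwards [ae_restrict_mem measurableSet_Ioi] with r hr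
      intro ζ hζ
      exact hchain ζ hζ r (le_of_lt hr))
  have hval : ∫ r in Ioi (0:ℝ), deriv Ψ (ζ₀ + r * d) * d = 0 - Ψ (ζ₀ + (0:ℝ) * d) := by
    apply integral_Ioi_of_hasDerivAt_of_tendsto' (f := fun r : ℝ => Ψ (ζ₀ + r * d))
    · intro r hr
      have h1 : HasDerivAt Ψ (deriv Ψ (ζ₀ + r * d)) (ζ₀ + r * d) := (hΨ ζ₀ hζ₀ r hr).hasDerivAt
      have h0 : HasDerivAt (fun x : ℝ => (x : ℂ)) 1 r := Complex.ofRealCLM.hasDerivAt
      have h2 : HasDerivAt (fun r : ℝ => ζ₀ + r * d) (1 * d) r := (h0.mul_const d).const_add ζ₀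
      have h3 := HasDerivAt.comp_of_eq r h1 h2 rfl
      rw [one_mul] at h3
      exact h3
    · exact main.1
    · apply squeeze_zero_norm' (a := fun r : ℝ => C * Real.exp (-(1 * r)))
      · filter_upwards [eventually_ge_atTop 0] with r hr
        exact hb ζ₀ hζ₀ r hr
      · have : Tendsto (fun r : ℝ => Real.exp (-(1 * r))) atTop (𝓝 0) := by
          simpa using Real.tendsto_exp_neg_atTop_nhds_zero
        simpa using this.const_mul C
  have := main.2
  rw [hval] at this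
  simpa using this

/-- the kernel -/
noncomputable def K (s : ℂ) : ℂ := Complex.exp s / Complex.sin (π * s) ^ 2

lemma sin_add_one (s : ℂ) : Complex.sin (π * (s + 1)) = -Complex.sin (π * s) := by
  rw [mul_add, mul_one, Complex.sin_add_pi]

lemma K_add_one (s : ℂ) : K (s + 1) = Complex.exp 1 * K s := by
  unfold K
  rw [sin_add_one, Complex.exp_add, neg_sq]
  ring

lemma differentiableAt_K {s : ℂ} (hs : Complex.sin (π * s) ≠ 0) : DifferentiableAt ℂ K s := by
  unfold K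
  apply DifferentiableAt.div
  · fun_prop
  · fun_prop
  · exact pow_ne_zero 2 hs

lemma norm_sin_ge (z : ℂ) : (Real.exp |z.im| - Real.exp (-|z.im|)) / 2 ≤ ‖Complex.sin z‖ := by
  have h1 : ‖Complex.exp (-z * I)‖ = Real.exp z.im := by
    rw [Complex.norm_exp]; simp
  have h2 : ‖Complex.exp (z * I)‖ = Real.exp (-z.im) := by
    rw [Complex.norm_exp]; simp
  have h3 : ‖Complex.sin z‖ = ‖Complex.exp (-z * I) - Complex.exp (z * I)‖ / 2 := by
    rw [Complex.sin]
    simp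
  rw [h3]
  have h4 := norm_sub_norm_le (Complex.exp (-z * I)) (Complex.exp (z * I))
  have h5 := norm_sub_norm_le (Complex.exp (z * I)) (Complex.exp (-z * I))
  rw [norm_sub_rev] at h5
  rw [h1, h2] at h4
  rw [h1, h2] at h5
  rcases le_total 0 z.im with h | h
  · rw [abs_of_nonneg h]
    linarith
  · rw [abs_of_nonpos h, neg_neg]
    linarith

lemma norm_cos_le (z : ℂ) : ‖Complex.cos z‖ ≤ Real.exp |z.im| := by
  have h1 : ‖Complex.exp (-z * I)‖ = Real.exp z.im := by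
    rw [Complex.norm_exp]; simp
  have h2 : ‖Complex.exp (z * I)‖ = Real.exp (-z.im) := by
    rw [Complex.norm_exp]; simp
  have h3 : ‖Complex.cos z‖ = ‖Complex.exp (z * I) + Complex.exp (-z * I)‖ / 2 := by
    rw [Complex.cos]
    simp
  rw [h3]
  have h4 := norm_add_le (Complex.exp (z * I)) (Complex.exp (-z * I))
  rw [h1, h2] at h4
  have h5 : Real.exp z.im ≤ Real.exp |z.im| := Real.exp_le_exp.mpr (le_abs_self _)
  have h6 : Real.exp (-z.im) ≤ Real.exp |z.im| := Real.exp_le_exp.mpr (neg_le_abs _)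
  linarith

/-- lower bound for the sine away from the real axis -/
lemma norm_sin_pi_ge {s : ℂ} (hs : 1 ≤ |s.im|) : Real.exp (π * |s.im|) / 4 ≤ ‖Complex.sin (π * s)‖ := by
  have h := norm_sin_ge (π * s)
  have him : ((π:ℂ) * s).im = π * s.im := by simp
  rw [him, abs_mul, abs_of_pos Real.pi_pos] at h
  have h1 : Real.exp (-(π * |s.im|)) ≤ 1 := by
    rw [Real.exp_le_one_iff]
    have := Real.pi_pos
    nlinarith [abs_nonneg s.im]
  have h2 : 2 ≤ Real.exp (π * |s.im|) := by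
    have h3 : π * |s.im| + 1 ≤ Real.exp (π * |s.im|) := Real.add_one_le_exp _
    have := Real.pi_gt_three
    nlinarith
  linarith

lemma deriv_K {s : ℂ} (hs : Complex.sin (π * s) ≠ 0) :
    deriv K s = K s * (1 - 2 * π * (Complex.cos (π * s) / Complex.sin (π * s))) := by
  have h1 : HasDerivAt (fun s : ℂ => (π:ℂ) * s) (π * 1) s := (hasDerivAt_id s).const_mul _
  have h2 : HasDerivAt (fun s : ℂ => Complex.sin (π * s)) (Complex.cos (π * s) * (π * 1)) s :=
    h1.csin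
  have h3 := h2.fun_pow 2
  have h4 := (Complex.hasDerivAt_exp s).div h3 (pow_ne_zero 2 hs)
  have h5 : deriv K s = _ := h4.deriv
  rw [h5]
  unfold K
  field_simp
  ring

lemma norm_K_le {s : ℂ} (hs : 1 ≤ |s.im|) : ‖K s‖ ≤ 16 * Real.exp (s.re - 2 * π * |s.im|) := by
  unfold K
  have h := norm_sin_pi_ge hs
  have hpos : 0 < Real.exp (π * |s.im|) / 4 := by positivity
  have hsp := hpos.trans_le h
  rw [norm_div, norm_pow, Complex.norm_exp, div_le_iff₀ (by positivity)]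
  have h2 : (Real.exp (π * |s.im|) / 4) ^ 2 ≤ ‖Complex.sin (π * s)‖ ^ 2 :=
    pow_le_pow_left₀ hpos.le h 2
  calc Real.exp s.re = 16 * Real.exp (s.re - 2 * π * |s.im|) * (Real.exp (π * |s.im|) / 4) ^ 2 := by
        rw [div_pow, ← Real.exp_nat_mul]
        rw [show 16 * Real.exp (s.re - 2 * π * |s.im|) * (Real.exp (((2:ℕ):ℝ) * (π * |s.im|)) / 4 ^ 2) =
          Real.exp (s.re - 2 * π * |s.im|) * Real.exp (((2:ℕ):ℝ) * (π * |s.im|)) by ring,
          ← Real.exp_add]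
        congr 1
        push_cast
        ring
    _ ≤ _ := by gcongr

lemma norm_deriv_K_le {s : ℂ} (hs : 1 ≤ |s.im|) :
    ‖deriv K s‖ ≤ 16 * (1 + 8 * π) * Real.exp (s.re - 2 * π * |s.im|) := by
  have hpos : 0 < Real.exp (π * |s.im|) / 4 := by positivity
  have hsin : Complex.sin (π * s) ≠ 0 := by
    rw [← norm_pos_iff]
    exact hpos.trans_le (norm_sin_pi_ge hs)
  rw [deriv_K hsin, norm_mul]
  have h1 := norm_K_le hs
  have h2 : ‖Complex.cos (π * s) / Complex.sin (π * s)‖ ≤ 4 := by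
    rw [norm_div, div_le_iff₀ (norm_pos_iff.mpr hsin)]
    have h3 := norm_cos_le (π * s)
    have him : ((π:ℂ) * s).im = π * s.im := by simp
    rw [him, abs_mul, abs_of_pos Real.pi_pos] at h3
    have h4 := norm_sin_pi_ge hs
    linarith
  have h5 : ‖(1:ℂ) - 2 * π * (Complex.cos (π * s) / Complex.sin (π * s))‖ ≤ 1 + 8 * π := by
    refine (norm_sub_le _ _).trans ?_
    rw [norm_one, norm_mul]
    have : ‖(2:ℂ) * π‖ = 2 * π := by
      rw [norm_mul, Complex.norm_real, Real.norm_eq_abs, abs_of_pos Real.pi_pos]; simp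
    rw [this]
    have := Real.pi_pos
    nlinarith
  calc ‖K s‖ * ‖(1:ℂ) - 2 * π * (Complex.cos (π * s) / Complex.sin (π * s))‖
      ≤ (16 * Real.exp (s.re - 2 * π * |s.im|)) * (1 + 8 * π) := by gcongr
    _ = _ := by ring

/-- Local uniform control of the kernel on rays. -/
lemma K_local {d ζ₀ : ℂ} (hd : d.re = 2) (hd' : |d.im| = 1)
    (h0 : ∀ r : ℝ, 0 ≤ r → Complex.sin (π * (ζ₀ + r * d)) ≠ 0) :
    ∃ ε > 0, ∃ C : ℝ, 0 ≤ C ∧ ∀ ζ ∈ ball ζ₀ ε, ∀ r : ℝ, 0 ≤ r →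
      Complex.sin (π * (ζ + r * d)) ≠ 0 ∧ ‖K (ζ + r * d)‖ ≤ C * Real.exp (-(3 * r)) ∧
        ‖deriv K (ζ + r * d)‖ ≤ C * Real.exp (-(3 * r)) := by
  set R : ℝ := ‖ζ₀‖ + 2 with hR
  -- tube
  have hopen : IsOpen {q : ℂ × ℝ | Complex.sin (π * (q.1 + q.2 * d)) ≠ 0} := by
    apply isOpen_ne_fun <;> fun_prop
  obtain ⟨u, v, hu, hv, hu0, hv0, huv⟩ := generalized_tube_lemma (isCompact_singleton (x := ζ₀))
    (isCompact_Icc (a := (0:ℝ)) (b := R)) hopen (by
      rintro ⟨a, b⟩ ⟨ha, hb⟩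
      rw [mem_singleton_iff] at ha
      simp only at ha
      subst ha
      exact h0 b hb.1)
  obtain ⟨ε₁, hε₁, hball⟩ := Metric.isOpen_iff.mp hu ζ₀ (hu0 rfl)
  set ε : ℝ := min (ε₁ / 2) 1 with hε
  have hεpos : 0 < ε := lt_min (by linarith) one_pos
  have hsub : closedBall ζ₀ ε ⊆ u := by
    refine Subset.trans ?_ hball
    apply closedBall_subset_ball
    exact (min_le_left _ _).trans_lt (by linarith)
  have hne : ∀ q ∈ closedBall ζ₀ ε ×ˢ Icc (0:ℝ) R, Complex.sin (π * (q.1 + q.2 * d)) ≠ 0 := by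
    rintro ⟨a, b⟩ ⟨ha, hb⟩
    exact huv ⟨hsub ha, hv0 hb⟩
  have hcomp : IsCompact (closedBall ζ₀ ε ×ˢ Icc (0:ℝ) R) :=
    (isCompact_closedBall ζ₀ ε).prod isCompact_Icc
  have hKc : ContinuousOn (fun q : ℂ × ℝ => K (q.1 + q.2 * d)) (closedBall ζ₀ ε ×ˢ Icc (0:ℝ) R) := by
    intro q hq
    have h1 : ContinuousAt K (q.1 + q.2 * d) := (differentiableAt_K (hne q hq)).continuousAt
    have h2 : ContinuousAt (fun q : ℂ × ℝ => q.1 + q.2 * d) q := by fun_prop
    exact (ContinuousAt.comp (f := fun q : ℂ × ℝ => q.1 + q.2 * d) h1 h2).continuousWithinAt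
  obtain ⟨C1, hC1⟩ := hcomp.exists_bound_of_continuousOn hKc
  have hcotc : ContinuousOn (fun q : ℂ × ℝ => (1 : ℂ) - 2 * π * (Complex.cos (π * (q.1 + q.2 * d)) /
      Complex.sin (π * (q.1 + q.2 * d)))) (closedBall ζ₀ ε ×ˢ Icc (0:ℝ) R) := by
    apply ContinuousOn.sub continuousOn_const
    apply ContinuousOn.mul continuousOn_const
    apply ContinuousOn.div
    · fun_prop
    · fun_prop
    · exact hne
  obtain ⟨C2, hC2⟩ := hcomp.exists_bound_of_continuousOn hcotc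
  have hmem0 : (ζ₀, (0:ℝ)) ∈ closedBall ζ₀ ε ×ˢ Icc (0:ℝ) R :=
    ⟨mem_closedBall_self hεpos.le, ⟨le_rfl, by positivity⟩⟩
  have hC1n : 0 ≤ C1 := (norm_nonneg _).trans (hC1 _ hmem0)
  have hC2n : 0 ≤ C2 := (norm_nonneg _).trans (hC2 _ hmem0)
  set C3 : ℝ := 16 * (1 + 8 * π) * Real.exp (‖ζ₀‖ + 1 + 2 * π * (‖ζ₀‖ + 1)) with hC3
  have hC3n : 0 ≤ C3 := by positivity
  set C : ℝ := C1 * Real.exp (3 * R) + C1 * C2 * Real.exp (3 * R) + C3 with hC
  refine ⟨ε, hεpos, C, by positivity, ?_⟩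
  intro ζ hζ r hr
  have hζc : ζ ∈ closedBall ζ₀ ε := ball_subset_closedBall hζ
  have hζn : ‖ζ‖ ≤ ‖ζ₀‖ + 1 := by
    have h1 : ‖ζ - ζ₀‖ < ε := by simpa [dist_eq_norm] using hζ
    have h2 : ‖ζ‖ ≤ ‖ζ - ζ₀‖ + ‖ζ₀‖ := by
      simpa using norm_add_le (ζ - ζ₀) ζ₀
    have h3 : ε ≤ 1 := min_le_right _ _
    linarith
  rcases le_total r R with hrR | hrR
  · have hq : (ζ, r) ∈ closedBall ζ₀ ε ×ˢ Icc (0:ℝ) R := ⟨hζc, hr, hrR⟩
    have h1 := hne _ hq
    have h2 := hC1 _ hq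
    have h3 := hC2 _ hq
    simp only at h1 h2 h3
    have he : 1 ≤ Real.exp (3 * R) * Real.exp (-(3 * r)) := by
      rw [← Real.exp_add]
      apply Real.one_le_exp
      linarith
    have hC0 : C1 * Real.exp (3 * R) ≤ C := by
      rw [hC]
      have : 0 ≤ C1 * C2 * Real.exp (3 * R) := by positivity
      linarith
    have hC0' : C1 * C2 * Real.exp (3 * R) ≤ C := by
      rw [hC]
      have : 0 ≤ C1 * Real.exp (3 * R) := by positivity
      linarith
    refine ⟨h1, ?_, ?_⟩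
    · calc ‖K (ζ + r * d)‖ ≤ C1 * 1 := by simpa using h2
        _ ≤ C1 * (Real.exp (3 * R) * Real.exp (-(3 * r))) := by gcongr
        _ = C1 * Real.exp (3 * R) * Real.exp (-(3 * r)) := by ring
        _ ≤ C * Real.exp (-(3 * r)) := by gcongr
    · rw [deriv_K h1, norm_mul]
      calc ‖K (ζ + r * d)‖ * ‖(1:ℂ) - 2 * π * (Complex.cos (π * (ζ + r * d)) /
            Complex.sin (π * (ζ + r * d)))‖ ≤ C1 * C2 := by gcongr
        _ = C1 * C2 * 1 := by ring
        _ ≤ C1 * C2 * (Real.exp (3 * R) * Real.exp (-(3 * r))) := by gcongr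
        _ = C1 * C2 * Real.exp (3 * R) * Real.exp (-(3 * r)) := by ring
        _ ≤ C * Real.exp (-(3 * r)) := by gcongr
  · have him : (ζ + r * d).im = ζ.im + r * d.im := by simp
    have hre : (ζ + r * d).re = ζ.re + r * 2 := by simp [hd]
    have habs : r - (‖ζ₀‖ + 1) ≤ |(ζ + r * d).im| := by
      rw [him]
      have h1 : |r * d.im| = r := by rw [abs_mul, hd', mul_one, abs_of_nonneg hr]
      have h2 := abs_im_le_norm ζ
      have h3 : |r * d.im| - |ζ.im| ≤ |ζ.im + r * d.im| := by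
        have := abs_sub_abs_le_abs_sub (r * d.im) (-ζ.im)
        rw [abs_neg, sub_neg_eq_add, add_comm (r * d.im)] at this
        exact this
      linarith
    have hone : 1 ≤ |(ζ + r * d).im| := by
      have : R ≤ r := hrR
      linarith
    have hexp : Real.exp ((ζ + r * d).re - 2 * π * |(ζ + r * d).im|) ≤
        Real.exp (‖ζ₀‖ + 1 + 2 * π * (‖ζ₀‖ + 1)) * Real.exp (-(3 * r)) := by
      rw [← Real.exp_add]
      apply Real.exp_le_exp.mpr
      rw [hre]
      have h1 := re_le_norm ζ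
      have h2 := Real.pi_gt_three
      have h3 : 2 * π * (r - (‖ζ₀‖ + 1)) ≤ 2 * π * |(ζ + r * d).im| := by gcongr
      nlinarith
    have hsin : Complex.sin (π * (ζ + r * d)) ≠ 0 := by
      rw [← norm_pos_iff]
      have hpos : 0 < Real.exp (π * |(ζ + r * d).im|) / 4 := by positivity
      exact hpos.trans_le (norm_sin_pi_ge hone)
    have hCC : C3 ≤ C := by
      rw [hC]
      have : 0 ≤ C1 * Real.exp (3 * R) + C1 * C2 * Real.exp (3 * R) := by positivity
      linarith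
    have h16 : (16:ℝ) ≤ 16 * (1 + 8 * π) := by
      have := Real.pi_pos
      nlinarith
    refine ⟨hsin, ?_, ?_⟩
    · calc ‖K (ζ + r * d)‖ ≤ 16 * Real.exp ((ζ + r * d).re - 2 * π * |(ζ + r * d).im|) :=
            norm_K_le hone
        _ ≤ 16 * (1 + 8 * π) * (Real.exp (‖ζ₀‖ + 1 + 2 * π * (‖ζ₀‖ + 1)) * Real.exp (-(3 * r))) := by
            gcongr
        _ = C3 * Real.exp (-(3 * r)) := by rw [hC3]; ring
        _ ≤ C * Real.exp (-(3 * r)) := by gcongr
    · calc ‖deriv K (ζ + r * d)‖ ≤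
            16 * (1 + 8 * π) * Real.exp ((ζ + r * d).re - 2 * π * |(ζ + r * d).im|) :=
            norm_deriv_K_le hone
        _ ≤ 16 * (1 + 8 * π) * (Real.exp (‖ζ₀‖ + 1 + 2 * π * (‖ζ₀‖ + 1)) * Real.exp (-(3 * r))) := by
            gcongr
        _ = C3 * Real.exp (-(3 * r)) := by rw [hC3]; ring
        _ ≤ C * Real.exp (-(3 * r)) := by gcongr

end Pool.Agent.Lib.MP_48d627_an
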