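import Mathlib
import Pool.Agent.Lib.MP_48d627_an.Geo
import Pool.Agent.Lib.MP_48d627_an.Ray

/-! The key functional identity. -/

open Complex Metric Set MeasureTheory Filter Topology
open scoped ENNReal Real

namespace Pool.Agent.Lib.MP_48d627_an

/-- admissible functions on the sector: analytic, with growth at most `exp (‖u‖/2)` together with
their derivative -/
structure Adm (v : ℂ → ℂ) (C₀ : ℝ) : Prop where
  nonneg : 0 ≤ C₀
  diff : DifferentiableOn ℂ v S
  bound : ∀ u ∈ S, ‖v u‖ ≤ C₀ * Real.exp (‖u‖ / 2)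
  bound' : ∀ u ∈ S, ‖deriv v u‖ ≤ C₀ * Real.exp (‖u‖ / 2)

/-- ray integral -/
noncomputable def J (d w : ℂ) (v : ℂ → ℂ) (ζ : ℂ) : ℂ :=
  ∫ r in Ioi (0:ℝ), K (ζ + r * d) * v (w + (ζ + r * d)) * d

/-- the solution operator -/
noncomputable def F (v : ℂ → ℂ) (w : ℂ) : ℂ := J (2 + I) w v (1 / 2) - J (2 - I) w v (1 / 2)

lemma sqrt3_le_two : √3 ≤ 2 := by
  rw [Real.sqrt_le_left (by norm_num)]
  norm_num

lemma Sc_smul {d : ℂ} (hd : d.re = 2) (hd' : |d.im| = 1) {r : ℝ} (hr : 0 ≤ r) :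
    (r : ℂ) * d ∈ Sc := by
  simp only [Sc, mem_ofPred_eq, mul_im, ofReal_re, ofReal_im, zero_mul, add_zero, mul_re, sub_zero]
  rw [abs_mul, hd', hd, abs_of_nonneg hr, mul_one]
  have := sqrt3_le_two
  nlinarith

lemma norm_d_le {d : ℂ} (hd : d.re = 2) (hd' : |d.im| = 1) : ‖d‖ ≤ 3 := by
  have := Complex.norm_le_abs_re_add_abs_im d
  rw [hd, hd'] at this
  norm_num at this
  linarith

lemma J_deriv {v : ℂ → ℂ} {C₀ : ℝ} (hv : Adm v C₀) {w ζ₀ d : ℂ} (hw : w ∈ S) (hζ : ζ₀ ∈ Sc)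
    (hd : d.re = 2) (hd' : |d.im| = 1)
    (h0 : ∀ r : ℝ, 0 ≤ r → Complex.sin (π * (ζ₀ + r * d)) ≠ 0) :
    HasDerivAt (J d w v) (-(K ζ₀ * v (w + ζ₀))) ζ₀ := by
  obtain ⟨ε₁, hε₁, C, hC, hK⟩ := K_local hd hd' h0
  obtain ⟨ε₂, hε₂, hball⟩ := Metric.isOpen_iff.mp isOpen_S w hw
  set ε := min (min ε₁ ε₂) 1 with hε
  have hεpos : 0 < ε := lt_min (lt_min hε₁ hε₂) one_pos
  have h1 : ∀ ζ ∈ ball ζ₀ ε, ζ ∈ ball ζ₀ ε₁ := fun ζ hζ =>
    ball_subset_ball ((min_le_left _ _).trans (min_le_left _ _)) hζ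
  have hmem : ∀ ζ ∈ ball ζ₀ ε, ∀ r : ℝ, 0 ≤ r → w + (ζ + r * d) ∈ S := by
    intro ζ hζ' r hr
    have h2 : w + (ζ - ζ₀) ∈ S := by
      apply hball
      rw [mem_ball, dist_eq_norm]
      have : ‖ζ - ζ₀‖ < ε := by simpa [dist_eq_norm] using hζ'
      have h3 : ε ≤ ε₂ := (min_le_left _ _).trans (min_le_right _ _)
      simpa using this.trans_le h3
    have h3 := S_add h2 (Sc_add hζ (Sc_smul hd hd' hr))
    convert h3 using 1
    ring
  have hnorm : ∀ ζ ∈ ball ζ₀ ε, ∀ r : ℝ, 0 ≤ r →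
      Real.exp (‖w + (ζ + r * d)‖ / 2) ≤ Real.exp ((‖w‖ + ‖ζ₀‖ + 1) / 2) * Real.exp (3 / 2 * r) := by
    intro ζ hζ' r hr
    rw [← Real.exp_add]
    apply Real.exp_le_exp.mpr
    have h2 : ‖ζ - ζ₀‖ < ε := by simpa [dist_eq_norm] using hζ'
    have h3 : ε ≤ 1 := min_le_right _ _
    have h4 : ‖ζ‖ ≤ ‖ζ - ζ₀‖ + ‖ζ₀‖ := by simpa using norm_add_le (ζ - ζ₀) ζ₀
    have h5 : ‖(r:ℂ) * d‖ ≤ r * 3 := by
      rw [norm_mul, Complex.norm_real, Real.norm_eq_abs, abs_of_nonneg hr]
      exact mul_le_mul_of_nonneg_left (norm_d_le hd hd') hr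
    have h6 := norm_add_le w (ζ + r * d)
    have h7 := norm_add_le ζ (r * d)
    linarith
  set E := Real.exp ((‖w‖ + ‖ζ₀‖ + 1) / 2) with hE
  have hE0 : 0 < E := Real.exp_pos _
  have hC₀ := hv.nonneg
  have hprod : ∀ r : ℝ, 0 ≤ r → Real.exp (-(3 * r)) * Real.exp (3 / 2 * r) ≤ Real.exp (-(1 * r)) := by
    intro r hr
    rw [← Real.exp_add]
    apply Real.exp_le_exp.mpr
    linarith
  have hΨd : ∀ ζ ∈ ball ζ₀ ε, ∀ r : ℝ, 0 ≤ r →
      HasDerivAt (fun s => K s * v (w + s)) (deriv K (ζ + r * d) * v (w + (ζ + r * d)) +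
        K (ζ + r * d) * deriv v (w + (ζ + r * d))) (ζ + r * d) := by
    intro ζ hζ' r hr
    have h2 : HasDerivAt K (deriv K (ζ + r * d)) (ζ + r * d) :=
      (differentiableAt_K (hK ζ (h1 ζ hζ') r hr).1).hasDerivAt
    have h3 : HasDerivAt v (deriv v (w + (ζ + r * d))) (w + (ζ + r * d)) :=
      (hv.diff.differentiableAt (isOpen_S.mem_nhds (hmem ζ hζ' r hr))).hasDerivAt
    have h4 : HasDerivAt (fun s => v (w + s)) (deriv v (w + (ζ + r * d))) (ζ + r * d) := by
      have h5 : HasDerivAt (fun s : ℂ => w + s) 1 (ζ + r * d) := (hasDerivAt_id _).const_add w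
      have h6 := HasDerivAt.comp (ζ + r * d) h3 h5
      rwa [mul_one] at h6
    exact h2.mul h4
  have hvb : ∀ ζ ∈ ball ζ₀ ε, ∀ r : ℝ, 0 ≤ r →
      ‖v (w + (ζ + r * d))‖ ≤ C₀ * (E * Real.exp (3 / 2 * r)) := by
    intro ζ hζ' r hr
    exact (hv.bound _ (hmem ζ hζ' r hr)).trans (by gcongr; exact hnorm ζ hζ' r hr)
  have hvb' : ∀ ζ ∈ ball ζ₀ ε, ∀ r : ℝ, 0 ≤ r →
      ‖deriv v (w + (ζ + r * d))‖ ≤ C₀ * (E * Real.exp (3 / 2 * r)) := by
    intro ζ hζ' r hr
    exact (hv.bound' _ (hmem ζ hζ' r hr)).trans (by gcongr; exact hnorm ζ hζ' r hr)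
  have main := ray_deriv (fun s => K s * v (w + s)) d ζ₀ (ε := ε) (C := 2 * (C * C₀ * E)) hεpos
    (fun ζ hζ' r hr => (hΨd ζ hζ' r hr).differentiableAt)
    (by
      intro ζ hζ' r hr
      have h2 := (hK ζ (h1 ζ hζ') r hr).2.1
      have h3 := hvb ζ hζ' r hr
      rw [norm_mul]
      calc ‖K (ζ + r * d)‖ * ‖v (w + (ζ + r * d))‖
          ≤ (C * Real.exp (-(3 * r))) * (C₀ * (E * Real.exp (3 / 2 * r))) := by gcongr
        _ = C * C₀ * E * (Real.exp (-(3 * r)) * Real.exp (3 / 2 * r)) := by ring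
        _ ≤ C * C₀ * E * Real.exp (-(1 * r)) := by gcongr; exact hprod r hr
        _ ≤ 2 * (C * C₀ * E) * Real.exp (-(1 * r)) := by
            have : 0 ≤ C * C₀ * E * Real.exp (-(1 * r)) := by positivity
            linarith)
    (by
      intro ζ hζ' r hr
      rw [(hΨd ζ hζ' r hr).deriv]
      have h2 := (hK ζ (h1 ζ hζ') r hr).2.1
      have h2' := (hK ζ (h1 ζ hζ') r hr).2.2
      have h3 := hvb ζ hζ' r hr
      have h3' := hvb' ζ hζ' r hr
      refine (norm_add_le _ _).trans ?_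
      rw [norm_mul, norm_mul]
      have e1 : ‖deriv K (ζ + r * d)‖ * ‖v (w + (ζ + r * d))‖ ≤
          C * C₀ * E * Real.exp (-(1 * r)) := by
        calc ‖deriv K (ζ + r * d)‖ * ‖v (w + (ζ + r * d))‖
            ≤ (C * Real.exp (-(3 * r))) * (C₀ * (E * Real.exp (3 / 2 * r))) := by gcongr
          _ = C * C₀ * E * (Real.exp (-(3 * r)) * Real.exp (3 / 2 * r)) := by ring
          _ ≤ C * C₀ * E * Real.exp (-(1 * r)) := by gcongr; exact hprod r hr
      have e2 : ‖K (ζ + r * d)‖ * ‖deriv v (w + (ζ + r * d))‖ ≤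
          C * C₀ * E * Real.exp (-(1 * r)) := by
        calc ‖K (ζ + r * d)‖ * ‖deriv v (w + (ζ + r * d))‖
            ≤ (C * Real.exp (-(3 * r))) * (C₀ * (E * Real.exp (3 / 2 * r))) := by gcongr
          _ = C * C₀ * E * (Real.exp (-(3 * r)) * Real.exp (3 / 2 * r)) := by ring
          _ ≤ C * C₀ * E * Real.exp (-(1 * r)) := by gcongr; exact hprod r hr
      linarith)
  exact main

lemma disc_sub_Sc {ζ : ℂ} (h : ζ ∈ closedBall (1:ℂ) (1 / 2)) : ζ ∈ Sc := by
  rw [mem_closedBall, dist_eq_norm] at h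
  have h1 : ‖ζ - 1‖ ^ 2 ≤ (1 / 2) ^ 2 := pow_le_pow_left₀ (norm_nonneg _) h 2
  rw [← Complex.normSq_eq_norm_sq, Complex.normSq_apply] at h1
  simp only [sub_re, one_re, sub_im, one_im, sub_zero] at h1
  simp only [Sc, mem_ofPred_eq]
  have h2 : 0 < ζ.re := by nlinarith [sq_nonneg ζ.im, sq_nonneg (ζ.re - 1)]
  have h3 : (√3 * |ζ.im|) ^ 2 ≤ ζ.re ^ 2 := by
    rw [mul_pow, Real.sq_sqrt (by norm_num), sq_abs]
    nlinarith [sq_nonneg (2 * ζ.re - 3 / 2)]
  exact (pow_le_pow_iff_left₀ (by positivity) h2.le (by norm_num)).mp h3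

lemma circle_half_re (θ : ℝ) : (circleMap 1 (1 / 2) θ).re = 1 + 1 / 2 * Real.cos θ := by
  simp [circleMap, Complex.exp_ofReal_mul_I_re]

lemma circle_half_im (θ : ℝ) : (circleMap 1 (1 / 2) θ).im = 1 / 2 * Real.sin θ := by
  simp [circleMap, Complex.exp_ofReal_mul_I_im]

lemma sin_pi_ne_of (s : ℂ) (h : s.im = 0 → ∀ n : ℤ, s.re ≠ n) : Complex.sin (π * s) ≠ 0 := by
  intro h0
  rw [Complex.sin_eq_zero_iff] at h0
  obtain ⟨k, hk⟩ := h0
  have hpi : (π : ℂ) ≠ 0 := by exact_mod_cast Real.pi_ne_zero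
  have hs : s = k := by
    apply mul_left_cancel₀ hpi
    rw [hk]; ring
  have him : s.im = 0 := by rw [hs]; simp
  exact h him k (by rw [hs]; simp)

lemma circle_ray_ne {d : ℂ} (σ : ℝ) (hd : d.im = σ) (hσ : σ = 1 ∨ σ = -1) {θ : ℝ}
    (hθ : 0 ≤ σ * Real.sin θ) {r : ℝ} (hr : 0 ≤ r) :
    Complex.sin (π * (circleMap 1 (1 / 2) θ + r * d)) ≠ 0 := by
  apply sin_pi_ne_of
  intro him n hn
  have h1 : (circleMap 1 (1 / 2) θ + r * d).im = 1 / 2 * Real.sin θ + r * σ := by
    rw [add_im, circle_half_im]; simp [hd]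
  rw [h1] at him
  have h2 : r = 0 := by
    rcases hσ with h | h <;> subst h <;> linarith
  have h3 : Real.sin θ = 0 := by
    rw [h2] at him; linarith
  have h4 : Real.cos θ ^ 2 = 1 := by
    have := Real.sin_sq_add_cos_sq θ
    rw [h3] at this; linarith
  rw [h2, ofReal_zero, zero_mul, add_zero, circle_half_re] at hn
  have h5 : Real.cos θ = 1 ∨ Real.cos θ = -1 :=
    mul_self_eq_one_iff.mp (by rw [← pow_two]; exact h4)
  rcases h5 with h5 | h5
  · rw [h5] at hn
    have : (2 * n : ℤ) = 3 := by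
      have : (2 * n : ℝ) = 3 := by linarith
      exact_mod_cast this
    omega
  · rw [h5] at hn
    have : (2 * n : ℤ) = 1 := by
      have : (2 * n : ℝ) = 1 := by linarith
      exact_mod_cast this
    omega

lemma circle_half_mem (θ : ℝ) : circleMap 1 (1 / 2) θ ∈ closedBall (1:ℂ) (1 / 2) :=
  circleMap_mem_closedBall _ (by norm_num) _

/-- the difference of the two ray integrals jumps by the circle integral -/
lemma jump {v : ℂ → ℂ} {C₀ : ℝ} (hv : Adm v C₀) {w : ℂ} (hw : w ∈ S) :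
    (J (2 + I) w v (3 / 2) - J (2 - I) w v (3 / 2)) - (J (2 + I) w v (1 / 2) - J (2 - I) w v (1 / 2)) =
      ∮ s in C(1, 1 / 2), K s * v (w + s) := by
  have hd1 : (2 + I).re = 2 := by simp
  have hd1' : (2 + I).im = 1 := by simp
  have hd2 : (2 - I).re = 2 := by simp
  have hd2' : (2 - I).im = -1 := by simp
  set c : ℝ → ℂ := circleMap 1 (1 / 2) with hc
  have hcd : ∀ θ : ℝ, HasDerivAt c (circleMap 0 (1 / 2) θ * I) θ := fun θ =>
    hasDerivAt_circleMap 1 (1 / 2) θ
  have hup : ∀ θ ∈ uIcc 0 π, HasDerivAt (fun θ => J (2 + I) w v (c θ))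
      (-(K (c θ) * v (w + c θ)) * (circleMap 0 (1 / 2) θ * I)) θ := by
    intro θ hθ
    rw [uIcc_of_le Real.pi_pos.le] at hθ
    have h1 := J_deriv hv hw (disc_sub_Sc (circle_half_mem θ)) hd1 (by simp)
      (fun r hr => circle_ray_ne 1 hd1' (Or.inl rfl)
        (by rw [one_mul]; exact Real.sin_nonneg_of_nonneg_of_le_pi hθ.1 hθ.2) hr)
    exact HasDerivAt.comp θ h1 (hcd θ)
  have hlow : ∀ θ ∈ uIcc π (2 * π), HasDerivAt (fun θ => J (2 - I) w v (c θ))
      (-(K (c θ) * v (w + c θ)) * (circleMap 0 (1 / 2) θ * I)) θ := by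
    intro θ hθ
    rw [uIcc_of_le (by linarith [Real.pi_pos])] at hθ
    have h1 := J_deriv hv hw (disc_sub_Sc (circle_half_mem θ)) hd2 (by simp)
      (fun r hr => circle_ray_ne (-1) hd2' (Or.inr rfl)
        (by
          have h2 : 0 ≤ Real.sin (θ - π) :=
            Real.sin_nonneg_of_nonneg_of_le_pi (by linarith [hθ.1]) (by linarith [hθ.2])
          rw [Real.sin_sub_pi] at h2
          linarith) hr)
    exact HasDerivAt.comp θ h1 (hcd θ)
  -- continuity of the integrand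
  have hcont : Continuous fun θ : ℝ => -(K (c θ) * v (w + c θ)) * (circleMap 0 (1 / 2) θ * I) := by
    have h1 : Continuous c := continuous_circleMap 1 (1 / 2)
    have h2 : Continuous fun θ : ℝ => circleMap (0:ℂ) (1 / 2) θ := continuous_circleMap 0 (1 / 2)
    have h3 : Continuous fun θ : ℝ => K (c θ) := by
      rw [continuous_iff_continuousAt]
      intro θ
      have hne : Complex.sin (π * c θ) ≠ 0 := by
        rcases le_total 0 (Real.sin θ) with h | h
        · have := circle_ray_ne (d := 2 + I) 1 hd1' (Or.inl rfl) (θ := θ) (by linarith) (le_refl 0)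
          rw [ofReal_zero, zero_mul, add_zero] at this
          exact this
        · have := circle_ray_ne (d := 2 - I) (-1) hd2' (Or.inr rfl) (θ := θ) (by linarith) (le_refl 0)
          rw [ofReal_zero, zero_mul, add_zero] at this
          exact this
      exact ContinuousAt.comp (differentiableAt_K hne).continuousAt h1.continuousAt
    have h4 : Continuous fun θ : ℝ => v (w + c θ) := by
      rw [continuous_iff_continuousAt]
      intro θ
      have hm : w + c θ ∈ S := S_add hw (disc_sub_Sc (circle_half_mem θ))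
      have h5 : ContinuousAt v (w + c θ) :=
        (hv.diff.differentiableAt (isOpen_S.mem_nhds hm)).continuousAt
      exact ContinuousAt.comp (f := fun θ : ℝ => w + c θ) h5 (by fun_prop)
    exact ((h3.mul h4).neg).mul (h2.mul continuous_const)
  have i1 := intervalIntegral.integral_eq_sub_of_hasDerivAt hup (hcont.intervalIntegrable _ _)
  have i2 := intervalIntegral.integral_eq_sub_of_hasDerivAt hlow (hcont.intervalIntegrable _ _)
  have c0 : c 0 = 3 / 2 := by simp [hc, circleMap]; norm_num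
  have cpi : c π = 1 / 2 := by simp [hc, circleMap]; norm_num
  have c2pi : c (2 * π) = 3 / 2 := by
    simp [hc, circleMap]; norm_num
  rw [c0, cpi] at i1
  rw [cpi, c2pi] at i2
  rw [circleIntegral]
  have e : ∫ θ in (0:ℝ)..2 * π, deriv (circleMap 1 (1 / 2)) θ •
      (fun s => K s * v (w + s)) (circleMap 1 (1 / 2) θ) =
      -∫ θ in (0:ℝ)..2 * π, -(K (c θ) * v (w + c θ)) * (circleMap 0 (1 / 2) θ * I) := by
    rw [← intervalIntegral.integral_neg]
    apply intervalIntegral.integral_congr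
    intro θ _
    simp only [deriv_circleMap, smul_eq_mul]
    ring
  rw [e, ← intervalIntegral.integral_add_adjacent_intervals (hcont.intervalIntegrable 0 π)
    (hcont.intervalIntegrable π (2 * π)), i1, i2]
  ring

/-- the regularised sine quotient -/
noncomputable def D (s : ℂ) : ℂ := dslope (fun s : ℂ => Complex.sin (π * s)) 1 s

lemma sin_pi_one : Complex.sin (π * (1:ℂ)) = 0 := by simp

lemma D_mul (s : ℂ) : (s - 1) * D s = Complex.sin (π * s) := by
  have := sub_smul_dslope (fun s : ℂ => Complex.sin (π * s)) 1 s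
  simp only [smul_eq_mul] at this
  rw [D, this, sin_pi_one, sub_zero]

lemma D_diff : Differentiable ℂ D := by
  have h : DifferentiableOn ℂ (dslope (fun s : ℂ => Complex.sin (π * s)) 1) univ := by
    rw [Complex.differentiableOn_dslope univ_mem]
    exact (by fun_prop : Differentiable ℂ fun s : ℂ => Complex.sin (π * s)).differentiableOn
  intro s
  exact h.differentiableAt univ_mem

lemma D_one : D 1 = -π := by
  unfold D
  rw [dslope_same]
  have h1 : HasDerivAt (fun s : ℂ => (π:ℂ) * s) (π * 1) 1 := (hasDerivAt_id 1).const_mul _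
  have h2 := h1.csin
  rw [h2.deriv]
  simp

lemma D_symm (s : ℂ) : D (2 - s) = D s := by
  by_cases hs : s = 1
  · subst hs; norm_num
  · have h1 : s - 1 ≠ 0 := sub_ne_zero.mpr hs
    have h2 := D_mul s
    have h3 := D_mul (2 - s)
    have h4 : Complex.sin (π * (2 - s)) = -Complex.sin (π * s) := by
      have : (π:ℂ) * (2 - s) = 2 * π - π * s := by ring
      rw [this, Complex.sin_two_pi_sub]
    rw [h4, ← h2] at h3
    apply mul_left_cancel₀ h1
    linear_combination (-1) * h3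

lemma D_deriv_one : deriv D 1 = 0 := by
  have h1 : HasDerivAt D (deriv D 1) 1 := (D_diff 1).hasDerivAt
  have h2 : HasDerivAt (fun s : ℂ => 2 - s) (-1) 1 := by
    simpa using (hasDerivAt_id (1:ℂ)).const_sub 2
  have h3 : HasDerivAt (fun s => D (2 - s)) (deriv D 1 * (-1)) 1 := by
    have h1' : HasDerivAt D (deriv D 1) (2 - 1) := by
      have : (2:ℂ) - 1 = 1 := by norm_num
      rw [this]; exact h1
    exact HasDerivAt.comp (h₂ := D) (h := fun s : ℂ => 2 - s) 1 h1' h2
  have h4 : (fun s => D (2 - s)) = D := funext D_symm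
  rw [h4] at h3
  have h5 := h3.unique h1
  have : deriv D 1 = -deriv D 1 := by
    rw [mul_neg_one] at h5
    exact h5.symm
  exact self_eq_neg.mp this

lemma D_ne {s : ℂ} (hs : s ∈ ball (1:ℂ) 1) : D s ≠ 0 := by
  intro h
  by_cases h1 : s = 1
  · rw [h1, D_one] at h
    have hpi : (π : ℂ) ≠ 0 := by exact_mod_cast Real.pi_ne_zero
    exact hpi (neg_eq_zero.mp h)
  · have h2 := D_mul s
    rw [h, mul_zero] at h2
    refine sin_pi_ne_of s ?_ h2.symm
    intro him n hn
    apply h1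
    have hs' : ‖s - 1‖ < 1 := by simpa [dist_eq_norm] using hs
    have hre : |s.re - 1| < 1 := by
      have := abs_re_le_norm (s - 1)
      simp only [sub_re, one_re] at this
      linarith
    rw [hn] at hre
    have hn1 : n = 1 := by
      have h3 : |(n - 1 : ℤ)| < 1 := by
        have : |((n - 1 : ℤ) : ℝ)| < 1 := by push_cast; exact hre
        exact_mod_cast this
      have := Int.abs_lt_one_iff.mp h3
      omega
    apply Complex.ext
    · rw [hn, hn1]; simp
    · rw [him]; simp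

lemma residue {v : ℂ → ℂ} {C₀ : ℝ} (hv : Adm v C₀) {w : ℂ} (hw : w ∈ S) :
    ∮ s in C(1, 1 / 2), K s * v (w + s) =
      2 * π * I * (Complex.exp 1 / π ^ 2 * (v (w + 1) + deriv v (w + 1))) := by
  set f : ℂ → ℂ := fun s => Complex.exp s * v (w + s) / D s ^ 2 with hf
  set V : Set ℂ := ball 1 1 ∩ (fun s => w + s) ⁻¹' S with hV
  have hVo : IsOpen V := isOpen_ball.inter (isOpen_S.preimage (by fun_prop))
  have hsub : closedBall (1:ℂ) (1 / 2) ⊆ V := by
    intro s hs
    refine ⟨closedBall_subset_ball (by norm_num) hs, S_add hw (disc_sub_Sc hs)⟩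
  have hvd : ∀ s ∈ V, DifferentiableAt ℂ (fun s => v (w + s)) s := by
    intro s hs
    have h1 : DifferentiableAt ℂ v (w + s) := hv.diff.differentiableAt (isOpen_S.mem_nhds hs.2)
    exact DifferentiableAt.comp (f := fun s => w + s) s h1 (by fun_prop)
  have hfd : DifferentiableOn ℂ f V := by
    intro s hs
    apply DifferentiableAt.differentiableWithinAt
    apply DifferentiableAt.div
    · exact Complex.differentiable_exp.differentiableAt.mul (hvd s hs)
    · exact (D_diff s).pow 2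
    · exact pow_ne_zero 2 (D_ne hs.1)
  have hmain := Complex.two_pi_I_inv_smul_circleIntegral_sub_sq_inv_smul_of_differentiable hVo hsub
    hfd (w₀ := 1) (mem_ball_self (by norm_num))
  have hcongr : ∮ s in C(1, 1 / 2), K s * v (w + s) =
      ∮ z in C(1, 1 / 2), ((z - 1) ^ 2)⁻¹ • f z := by
    apply circleIntegral.integral_congr (by norm_num)
    intro s hs
    simp only [hf, K, smul_eq_mul]
    have h1 : s - 1 ≠ 0 := by
      intro h
      rw [mem_sphere, dist_eq_norm, h] at hs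
      norm_num at hs
    have hsb : s ∈ ball (1:ℂ) 1 := by
      rw [mem_sphere, dist_eq_norm] at hs
      rw [mem_ball, dist_eq_norm, hs]
      norm_num
    have h2 := D_ne hsb
    rw [← D_mul s]
    field_simp
  have hder : deriv f 1 = Complex.exp 1 / π ^ 2 * (v (w + 1) + deriv v (w + 1)) := by
    have h1V : (1:ℂ) ∈ V := hsub (mem_closedBall_self (by norm_num))
    have hpi : (π : ℂ) ≠ 0 := by exact_mod_cast Real.pi_ne_zero
    have a1 : HasDerivAt v (deriv v (w + 1)) (w + 1) :=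
      (hv.diff.differentiableAt (isOpen_S.mem_nhds h1V.2)).hasDerivAt
    have a2 : HasDerivAt (fun s => v (w + s)) (deriv v (w + 1)) 1 := by
      have a3 : HasDerivAt (fun s : ℂ => w + s) 1 1 := (hasDerivAt_id _).const_add w
      have a4 := HasDerivAt.comp 1 a1 a3
      rwa [mul_one] at a4
    have a5 : HasDerivAt (fun s => D s ^ 2) (2 * D 1 ^ 1 * deriv D 1) 1 := by
      simpa using ((D_diff 1).hasDerivAt).fun_pow 2
    have a6 := ((Complex.hasDerivAt_exp 1).mul a2).div a5 (pow_ne_zero 2 (D_ne h1V.1))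
    have a7 : deriv f 1 = _ := a6.deriv
    rw [a7, D_deriv_one, D_one]
    simp only [Pi.mul_apply]
    field_simp
    ring
  rw [hcongr, ← hder, ← hmain, smul_eq_mul, ← mul_assoc, mul_inv_cancel₀ Complex.two_pi_I_ne_zero,
    one_mul]

lemma K_eq (s : ℂ) : K s = Complex.exp (-1) * K (s + 1) := by
  rw [K_add_one, ← mul_assoc, ← Complex.exp_add]
  simp

lemma J_shift (d w : ℂ) (v : ℂ → ℂ) :
    J d (w + 1) v (1 / 2) = Complex.exp (-1) * J d w v (3 / 2) := by
  unfold J
  rw [← integral_const_mul]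
  congr 1
  ext r
  rw [K_eq (1 / 2 + r * d)]
  have h1 : (1:ℂ) / 2 + r * d + 1 = 3 / 2 + r * d := by ring
  have h2 : w + 1 + (1 / 2 + r * d) = w + (3 / 2 + r * d) := by ring
  rw [h1, h2]
  ring

/-- **Key identity.** -/
theorem key_identity {v : ℂ → ℂ} {C₀ : ℝ} (hv : Adm v C₀) {w : ℂ} (hw : w ∈ S) :
    F v (w + 1) - Complex.exp (-1) * F v w = 2 * I / π * (v (w + 1) + deriv v (w + 1)) := by
  unfold F
  rw [J_shift, J_shift]
  have h1 := jump hv hw
  rw [residue hv hw] at h1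
  have hpi : (π : ℂ) ≠ 0 := by exact_mod_cast Real.pi_ne_zero
  have he : Complex.exp (-1) * Complex.exp 1 = 1 := by rw [← Complex.exp_add]; simp
  calc Complex.exp (-1) * J (2 + I) w v (3 / 2) - Complex.exp (-1) * J (2 - I) w v (3 / 2) -
        Complex.exp (-1) * (J (2 + I) w v (1 / 2) - J (2 - I) w v (1 / 2))
      = Complex.exp (-1) * ((J (2 + I) w v (3 / 2) - J (2 - I) w v (3 / 2)) -
          (J (2 + I) w v (1 / 2) - J (2 - I) w v (1 / 2))) := by ring
    _ = Complex.exp (-1) * (2 * π * I * (Complex.exp 1 / π ^ 2 * (v (w + 1) + deriv v (w + 1)))) := by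
        rw [h1]
    _ = (Complex.exp (-1) * Complex.exp 1) * (2 * π * I / π ^ 2 * (v (w + 1) + deriv v (w + 1))) := by
        ring
    _ = 2 * I / π * (v (w + 1) + deriv v (w + 1)) := by
        rw [he, one_mul]
        field_simp

end Pool.Agent.Lib.MP_48d627_an
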