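import Mathlib
import Pool.Agent.Lib.MP_48d627_an.Geo
import Pool.Agent.Lib.MP_48d627_an.Major
import Pool.Agent.Lib.MP_48d627_an.Harnack
import Pool.Agent.Lib.MP_48d627_an.Key

/-! Solving `v' + v = G` in the sector with a bound. -/

open Complex Metric Set MeasureTheory Filter Topology
open scoped ENNReal Real

namespace Pool.Agent.Lib.MP_48d627_an

lemma prim {V : Set ℂ} (hV : IsOpen V) {E : ℂ → ℂ} (hE : DifferentiableOn ℂ E V) {w₀ : ℂ}
    (h0 : ∀ x ∈ Icc (0:ℝ) 1, (x:ℂ) * w₀ ∈ V) :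
    HasDerivAt (fun w => ∫ x in (0:ℝ)..1, w * E (x * w)) (E w₀) w₀ := by
  have hopen : IsOpen {p : ℂ × ℝ | (p.2 : ℂ) * p.1 ∈ V} := hV.preimage (by fun_prop)
  obtain ⟨u, v, hu, hv, hu0, hv0, huv⟩ := generalized_tube_lemma (isCompact_singleton (x := w₀))
    (isCompact_Icc (a := (0:ℝ)) (b := 1)) hopen (by
      rintro ⟨a, b⟩ ⟨ha, hb⟩
      rw [mem_singleton_iff] at ha
      simp only at ha
      subst ha
      exact h0 b hb)
  obtain ⟨ε, hε, hball⟩ := Metric.isOpen_iff.mp hu w₀ (hu0 rfl)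
  have hδpos : 0 < ε / 2 := by positivity
  have hδ : closedBall w₀ (ε / 2) ⊆ u := (closedBall_subset_ball (by linarith)).trans hball
  have hmem : ∀ w ∈ closedBall w₀ (ε / 2), ∀ x ∈ Icc (0:ℝ) 1, (x:ℂ) * w ∈ V :=
    fun w hw x hx => huv (a := (w, x)) ⟨hδ hw, hv0 hx⟩
  set L : Set ℂ := (fun p : ℂ × ℝ => (p.2:ℂ) * p.1) '' (closedBall w₀ (ε / 2) ×ˢ Icc 0 1) with hL
  have hKc : IsCompact L := ((isCompact_closedBall _ _).prod isCompact_Icc).image (by fun_prop)
  have hLV : L ⊆ V := by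
    rintro _ ⟨⟨w, x⟩, ⟨hw, hx⟩, rfl⟩
    exact hmem w hw x hx
  have hLm : ∀ w ∈ closedBall w₀ (ε / 2), ∀ x ∈ Icc (0:ℝ) 1, (x:ℂ) * w ∈ L :=
    fun w hw x hx => ⟨(w, x), ⟨hw, hx⟩, rfl⟩
  have hE' : ContinuousOn (deriv E) V := (hE.deriv hV).continuousOn
  obtain ⟨C1, hC1⟩ := hKc.exists_bound_of_continuousOn (hE.continuousOn.mono hLV)
  obtain ⟨C2, hC2⟩ := hKc.exists_bound_of_continuousOn (hE'.mono hLV)
  have hw₀ : w₀ ∈ closedBall w₀ (ε / 2) := mem_closedBall_self hδpos.le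
  have hC1' : 0 ≤ C1 := (norm_nonneg _).trans (hC1 _ (hLm w₀ hw₀ 0 ⟨le_refl 0, zero_le_one⟩))
  have hC2' : 0 ≤ C2 := (norm_nonneg _).trans (hC2 _ (hLm w₀ hw₀ 0 ⟨le_refl 0, zero_le_one⟩))
  have hcontE : ∀ w ∈ closedBall w₀ (ε / 2), ContinuousOn (fun x : ℝ => E (x * w)) (Icc 0 1) := by
    intro w hw
    exact hE.continuousOn.comp (by fun_prop) (fun x hx => hmem w hw x hx)
  have hcontE' : ∀ w ∈ closedBall w₀ (ε / 2),
      ContinuousOn (fun x : ℝ => deriv E (x * w)) (Icc 0 1) := by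
    intro w hw
    exact hE'.comp (by fun_prop) (fun x hx => hmem w hw x hx)
  have huI : uIcc (0:ℝ) 1 = Icc 0 1 := uIcc_of_le zero_le_one
  have hF : ∀ w ∈ closedBall w₀ (ε / 2),
      IntervalIntegrable (fun x : ℝ => w * E (x * w)) volume 0 1 := by
    intro w hw
    apply ContinuousOn.intervalIntegrable
    rw [huI]
    exact continuousOn_const.mul (hcontE w hw)
  have hF' : IntervalIntegrable (fun x : ℝ => E (x * w₀) + w₀ * (deriv E (x * w₀) * x)) volume 0 1 := by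
    apply ContinuousOn.intervalIntegrable
    rw [huI]
    exact (hcontE w₀ hw₀).add (continuousOn_const.mul ((hcontE' w₀ hw₀).mul (by fun_prop)))
  have main := intervalIntegral.hasDerivAt_integral_of_dominated_loc_of_deriv_le (μ := volume)
    (a := 0) (b := 1)
    (F := fun (w : ℂ) (x : ℝ) => w * E (x * w))
    (F' := fun (w : ℂ) (x : ℝ) => E (x * w) + w * (deriv E (x * w) * x))
    (x₀ := w₀) (s := ball w₀ (ε / 2))
    (bound := fun _ : ℝ => C1 + (‖w₀‖ + ε / 2) * C2) (ball_mem_nhds w₀ hδpos)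
    (by
      filter_upwards [ball_mem_nhds w₀ hδpos] with w hw
      exact (hF w (ball_subset_closedBall hw)).aestronglyMeasurable_restrict_uIoc)
    (hF w₀ hw₀)
    hF'.aestronglyMeasurable_restrict_uIoc
    (by
      refine ae_of_all _ fun x hx w hw => ?_
      rw [uIoc_of_le zero_le_one] at hx
      have hx' : x ∈ Icc (0:ℝ) 1 := ⟨hx.1.le, hx.2⟩
      have hw' := ball_subset_closedBall hw
      have b1 := hC1 _ (hLm w hw' x hx')
      have b2 := hC2 _ (hLm w hw' x hx')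
      have b3 : ‖w‖ ≤ ‖w₀‖ + ε / 2 := by
        have h1 : ‖w - w₀‖ < ε / 2 := by simpa [dist_eq_norm] using hw
        have h2 : ‖w‖ ≤ ‖w₀‖ + ‖w - w₀‖ := by
          calc ‖w‖ = ‖w₀ + (w - w₀)‖ := by ring_nf
            _ ≤ _ := norm_add_le _ _
        linarith
      have b4 : ‖(x:ℂ)‖ ≤ 1 := by
        rw [Complex.norm_real, Real.norm_eq_abs, abs_of_nonneg hx.1.le]
        exact hx.2
      calc ‖E (x * w) + w * (deriv E (x * w) * x)‖ ≤ ‖E (x * w)‖ + ‖w‖ * (‖deriv E (x * w)‖ * ‖(x:ℂ)‖) := by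
            refine (norm_add_le _ _).trans ?_
            rw [norm_mul, norm_mul]
        _ ≤ C1 + (‖w₀‖ + ε / 2) * (C2 * 1) := by gcongr
        _ = C1 + (‖w₀‖ + ε / 2) * C2 := by ring)
    intervalIntegrable_const
    (by
      refine ae_of_all _ fun x hx w hw => ?_
      rw [uIoc_of_le zero_le_one] at hx
      have hx' : x ∈ Icc (0:ℝ) 1 := ⟨hx.1.le, hx.2⟩
      have hw' := ball_subset_closedBall hw
      have h1 : HasDerivAt E (deriv E (x * w)) (x * w) :=
        (hE.differentiableAt (hV.mem_nhds (hmem w hw' x hx'))).hasDerivAt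
      have h2 : HasDerivAt (fun w : ℂ => (x:ℂ) * w) (x * 1) w := (hasDerivAt_id w).const_mul _
      have h3 := HasDerivAt.comp w h1 h2
      rw [mul_one] at h3
      have h4 := (hasDerivAt_id w).mul h3
      refine h4.congr_deriv ?_
      simp)
  have hval : ∫ x in (0:ℝ)..1, (E (x * w₀) + w₀ * (deriv E (x * w₀) * x)) = E w₀ := by
    have h1 : ∀ x ∈ uIcc (0:ℝ) 1, HasDerivAt (fun x : ℝ => (x:ℂ) * E (x * w₀))
        (E (x * w₀) + w₀ * (deriv E (x * w₀) * x)) x := by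
      intro x hx
      rw [huI] at hx
      have h1 : HasDerivAt E (deriv E (x * w₀)) (x * w₀) :=
        (hE.differentiableAt (hV.mem_nhds (h0 x hx))).hasDerivAt
      have h0 : HasDerivAt (fun x : ℝ => (x : ℂ)) 1 x := Complex.ofRealCLM.hasDerivAt
      have h2 : HasDerivAt (fun x : ℝ => (x:ℂ) * w₀) (1 * w₀) x := h0.mul_const w₀
      have h3 := HasDerivAt.comp_of_eq x h1 h2 rfl
      have h4 := h0.mul h3
      refine h4.congr_deriv ?_
      simp
      ring
    have h2 := intervalIntegral.integral_eq_sub_of_hasDerivAt h1 hF'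
    rw [h2]
    simp
  have h5 := main.2
  rw [hval] at h5
  exact h5

/-- enlarged sector -/
def S12 : Set ℂ := {w | w + 12 ∈ S}

lemma isOpen_S12 : IsOpen S12 := isOpen_S.preimage (by fun_prop)

lemma twelve_mem : (12:ℂ) ∈ S := by
  have := ofReal_mem_S (x := 12) (by norm_num)
  simpa using this

lemma mul_mem_S12 {w : ℂ} (hw : w ∈ S) {x : ℝ} (hx : 0 ≤ x) : (x:ℂ) * w ∈ S12 := by
  show (x:ℂ) * w + 12 ∈ S
  rcases hx.eq_or_lt with h | h
  · subst h
    simpa using twelve_mem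
  · exact S_add' (S_mul hw h) twelve_mem

lemma G_diff {g : ℂ → ℂ} (hg : DifferentiableOn ℂ g (ball 0 1)) :
    DifferentiableOn ℂ (fun w => g (Z (w + 12))) S12 := by
  intro w hw
  have h1 : DifferentiableAt ℂ g (Z (w + 12)) := hg.differentiableAt (isOpen_ball.mem_nhds (Z_mem hw))
  have h2 : DifferentiableAt ℂ Z (w + 12) := differentiableAt_Z hw
  have h3 : DifferentiableAt ℂ (fun w : ℂ => w + 12) w := by fun_prop
  have h4 : DifferentiableAt ℂ (fun w => Z (w + 12)) w :=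
    DifferentiableAt.comp (g := Z) (f := fun w : ℂ => w + 12) w h2 h3
  exact (DifferentiableAt.comp (f := fun w => Z (w + 12)) w h1 h4).differentiableWithinAt

/-- the solution of `v' + v = G` -/
noncomputable def vsol (g : ℂ → ℂ) (w : ℂ) : ℂ :=
  Complex.exp (-w) * ∫ x in (0:ℝ)..1, w * (Complex.exp (x * w) * g (Z (x * w + 12)))

lemma vsol_hasDerivAt {g : ℂ → ℂ} (hg : DifferentiableOn ℂ g (ball 0 1)) {w : ℂ} (hw : w ∈ S) :
    HasDerivAt (vsol g) (g (Z (w + 12)) - vsol g w) w := by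
  have hE : DifferentiableOn ℂ (fun w => Complex.exp w * g (Z (w + 12))) S12 := by
    exact (Complex.differentiable_exp.differentiableOn).mul (G_diff hg)
  have h1 := prim isOpen_S12 hE (w₀ := w) (fun x hx => mul_mem_S12 hw hx.1)
  have h2 : HasDerivAt (fun w : ℂ => Complex.exp (-w)) (Complex.exp (-w) * (-1)) w :=
    (hasDerivAt_neg w).cexp
  have h3 := h2.mul h1
  refine h3.congr_deriv ?_
  unfold vsol
  have he : Complex.exp (-w) * Complex.exp w = 1 := by rw [← Complex.exp_add]; simp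
  linear_combination (g (Z (w + 12))) * he

lemma exp_int (a : ℝ) : ∫ x in (0:ℝ)..1, a * Real.exp (-((1 - x) * a)) ≤ 1 := by
  have h1 : ∀ x ∈ uIcc (0:ℝ) 1, HasDerivAt (fun x : ℝ => Real.exp (-((1 - x) * a)))
      (a * Real.exp (-((1 - x) * a))) x := by
    intro x _
    have h : HasDerivAt (fun x : ℝ => -((1 - x) * a)) a x := by
      have h0 := (((hasDerivAt_id x).const_sub 1).mul_const a).neg
      refine h0.congr_deriv ?_
      ring
    have h2 := h.exp
    refine h2.congr_deriv ?_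
    ring
  rw [intervalIntegral.integral_eq_sub_of_hasDerivAt h1]
  · simp
    positivity
  · apply Continuous.intervalIntegrable
    fun_prop

lemma sqrt3_lower : (5:ℝ) / 3 ≤ √3 := by
  apply Real.le_sqrt_of_sq_le
  norm_num

lemma norm_vsol_le {g : ℂ → ℂ} (hg : DifferentiableOn ℂ g (ball 0 1)) {M : ℝ} (hM : HB g M) {w : ℂ}
    (hw : w ∈ S) : ‖vsol g w‖ ≤ 3 * A g w := by
  have hw0 : 0 < ‖w‖ := norm_pos_iff.mpr (S_ne_zero hw)
  have hre := S_norm_le hw
  have hs := sqrt3_lower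
  have hre' : 5 / 6 * ‖w‖ ≤ w.re := by nlinarith
  have hA0 := A_nonneg g w
  unfold vsol
  rw [← intervalIntegral.integral_const_mul]
  have hb : ∀ x ∈ Ioc (0:ℝ) 1, ‖Complex.exp (-w) * (w * (Complex.exp (x * w) * g (Z (x * w + 12))))‖ ≤
      3 * A g w * ((‖w‖ / 3) * Real.exp (-((1 - x) * (‖w‖ / 3)))) := by
    intro x hx
    have hxw : (x:ℂ) * w ∈ S := S_mul hw hx.1
    have h1 := norm_le_A hg hM hxw
    have h2 := A_harnack hg hM hw hxw
    have h3 : ‖(x:ℂ) * w - w‖ = (1 - x) * ‖w‖ := by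
      have : (x:ℂ) * w - w = ((x - 1 : ℝ) : ℂ) * w := by push_cast; ring
      rw [this, norm_mul, Complex.norm_real, Real.norm_eq_abs, abs_sub_comm, abs_of_nonneg (by linarith [hx.2])]
    rw [h3] at h2
    have h4 : ‖g (Z (x * w + 12))‖ ≤ Real.exp ((1 - x) * ‖w‖ / 2) * A g w := h1.trans h2
    rw [norm_mul, norm_mul, norm_mul, Complex.norm_exp, Complex.norm_exp]
    have e1 : (-w).re = -w.re := by simp
    have e2 : ((x:ℂ) * w).re = x * w.re := by simp
    rw [e1, e2]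
    have h5 : Real.exp (-w.re) * Real.exp (x * w.re) * Real.exp ((1 - x) * ‖w‖ / 2) ≤
        Real.exp (-((1 - x) * (‖w‖ / 3))) := by
      rw [← Real.exp_add, ← Real.exp_add]
      apply Real.exp_le_exp.mpr
      have h6 : 0 ≤ 1 - x := by linarith [hx.2]
      nlinarith
    calc Real.exp (-w.re) * (‖w‖ * (Real.exp (x * w.re) * ‖g (Z (x * w + 12))‖))
        ≤ Real.exp (-w.re) * (‖w‖ * (Real.exp (x * w.re) * (Real.exp ((1 - x) * ‖w‖ / 2) * A g w))) := by
          gcongr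
      _ = (Real.exp (-w.re) * Real.exp (x * w.re) * Real.exp ((1 - x) * ‖w‖ / 2)) * (‖w‖ * A g w) := by
          ring
      _ ≤ Real.exp (-((1 - x) * (‖w‖ / 3))) * (‖w‖ * A g w) := by gcongr
      _ = 3 * A g w * ((‖w‖ / 3) * Real.exp (-((1 - x) * (‖w‖ / 3)))) := by ring
  have h7 := intervalIntegral.norm_integral_le_of_norm_le (μ := volume) (a := 0) (b := 1) zero_le_one
    (f := fun x : ℝ => Complex.exp (-w) * (w * (Complex.exp (x * w) * g (Z (x * w + 12)))))
    (g := fun x : ℝ => 3 * A g w * ((‖w‖ / 3) * Real.exp (-((1 - x) * (‖w‖ / 3)))))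
    (ae_of_all _ hb) (by apply Continuous.intervalIntegrable; fun_prop)
  refine h7.trans ?_
  rw [intervalIntegral.integral_const_mul]
  have h8 := exp_int (‖w‖ / 3)
  calc 3 * A g w * ∫ x in (0:ℝ)..1, ‖w‖ / 3 * Real.exp (-((1 - x) * (‖w‖ / 3)))
      ≤ 3 * A g w * 1 := by gcongr
    _ = 3 * A g w := by ring

lemma A_le_base {g : ℂ → ℂ} (hg : DifferentiableOn ℂ g (ball 0 1)) {M : ℝ} (hM : HB g M) {w : ℂ}
    (hw : w ∈ S) : A g w ≤ (Real.exp (1 / 2) * A g 1) * Real.exp (‖w‖ / 2) := by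
  have h1 : (1:ℂ) ∈ S := by simpa using ofReal_mem_S (x := 1) one_pos
  have h2 := A_harnack hg hM h1 hw
  have h3 : ‖w - 1‖ ≤ ‖w‖ + 1 := by
    have := norm_sub_le w 1
    simpa using this
  have hA0 := A_nonneg g 1
  calc A g w ≤ Real.exp (‖w - 1‖ / 2) * A g 1 := h2
    _ ≤ Real.exp ((‖w‖ + 1) / 2) * A g 1 := by gcongr
    _ = (Real.exp (1 / 2) * A g 1) * Real.exp (‖w‖ / 2) := by
      rw [show (‖w‖ + 1) / 2 = 1 / 2 + ‖w‖ / 2 by ring, Real.exp_add]
      ring

lemma vsol_adm {g : ℂ → ℂ} (hg : DifferentiableOn ℂ g (ball 0 1)) {M : ℝ} (hM : HB g M) :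
    Adm (vsol g) (4 * (Real.exp (1 / 2) * A g 1)) where
  nonneg := by have := A_nonneg g 1; positivity
  diff := fun w hw => (vsol_hasDerivAt hg hw).differentiableAt.differentiableWithinAt
  bound := by
    intro u hu
    have h1 := norm_vsol_le hg hM hu
    have h2 := A_le_base hg hM hu
    have h3 := A_nonneg g u
    nlinarith
  bound' := by
    intro u hu
    rw [(vsol_hasDerivAt hg hu).deriv]
    have h1 := norm_vsol_le hg hM hu
    have h2 := A_le_base hg hM hu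
    have h3 := norm_le_A hg hM hu
    have h4 := norm_sub_le (g (Z (u + 12))) (vsol g u)
    nlinarith

end Pool.Agent.Lib.MP_48d627_an
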