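import Mathlib
import Pool.Agent.Lib.MP_48d627_an.Geo
import Pool.Agent.Lib.MP_48d627_an.Major
import Pool.Agent.Lib.MP_48d627_an.Harnack
import Pool.Agent.Lib.MP_48d627_an.Key
import Pool.Agent.Lib.MP_48d627_an.VStep

/-! The solution operator: analyticity in `w` and bounds. -/

open Complex Metric Set MeasureTheory Filter Topology
open scoped ENNReal Real

namespace Pool.Agent.Lib.MP_48d627_an

lemma half_ray_ne {d : ℂ} (hd' : |d.im| = 1) {r : ℝ} (hr : 0 ≤ r) :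
    Complex.sin (π * (1 / 2 + r * d)) ≠ 0 := by
  apply sin_pi_ne_of
  intro him n hn
  have h1 : ((1:ℂ) / 2 + r * d).im = r * d.im := by simp
  rw [h1] at him
  have h2 : d.im ≠ 0 := by
    intro h
    rw [h] at hd'
    simp at hd'
  have h3 : r = 0 := by
    rcases mul_eq_zero.mp him with h | h
    · exact h
    · exact absurd h h2
  rw [h3, ofReal_zero, zero_mul, add_zero] at hn
  have h4 : ((1:ℂ) / 2).re = 1 / 2 := by norm_num
  rw [h4] at hn
  have h5 : (2 * n : ℤ) = 1 := by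
    have : (2 * n : ℝ) = 1 := by linarith
    exact_mod_cast this
  omega

lemma half_ray_Sc {d : ℂ} (hd : d.re = 2) (hd' : |d.im| = 1) {r : ℝ} (hr : 0 ≤ r) :
    (1 / 2 + r * d : ℂ) ∈ Sc := by
  apply Sc_add _ (Sc_smul hd hd' hr)
  have := ofReal_mem_Sc (x := 1 / 2) (by norm_num)
  simpa using this

lemma norm_half_ray {d : ℂ} (hd : d.re = 2) (hd' : |d.im| = 1) {r : ℝ} (hr : 0 ≤ r) :
    ‖(1 / 2 + r * d : ℂ)‖ ≤ 1 / 2 + 3 * r := by
  have h1 := norm_d_le hd hd'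
  calc ‖(1 / 2 + r * d : ℂ)‖ ≤ ‖(1 / 2 : ℂ)‖ + ‖(r:ℂ) * d‖ := norm_add_le _ _
    _ = 1 / 2 + r * ‖d‖ := by
      rw [norm_mul, Complex.norm_real, Real.norm_eq_abs, abs_of_nonneg hr]
      norm_num
    _ ≤ 1 / 2 + 3 * r := by nlinarith

/-- bound for the kernel on the two rays from `1/2` -/
lemma K_half {d : ℂ} (hd : d.re = 2) (hd' : |d.im| = 1) :
    ∃ C : ℝ, 0 ≤ C ∧ ∀ r : ℝ, 0 ≤ r → ‖K (1 / 2 + r * d)‖ ≤ C * Real.exp (-(3 * r)) := by
  obtain ⟨ε, hε, C, hC, h⟩ := K_local (ζ₀ := 1 / 2) hd hd' (fun r hr => half_ray_ne hd' hr)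
  exact ⟨C, hC, fun r hr => (h (1 / 2) (mem_ball_self hε) r hr).2.1⟩

lemma J_meas {v : ℂ → ℂ} (hv : DifferentiableOn ℂ v S) {w d : ℂ} (hw : w ∈ S)
    (hd : d.re = 2) (hd' : |d.im| = 1) :
    AEStronglyMeasurable (fun r : ℝ => K (1 / 2 + r * d) * v (w + (1 / 2 + r * d)) * d)
      (volume.restrict (Ioi 0)) := by
  have hc : ContinuousOn (fun r : ℝ => K (1 / 2 + r * d) * v (w + (1 / 2 + r * d)) * d) (Ioi 0) := by
    intro r hr
    have hr' : (0:ℝ) ≤ r := le_of_lt hr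
    have h1 : ContinuousAt K (1 / 2 + r * d) :=
      (differentiableAt_K (half_ray_ne hd' hr')).continuousAt
    have h2 : ContinuousAt (fun r : ℝ => (1 / 2 + r * d : ℂ)) r := by fun_prop
    have hm : w + (1 / 2 + r * d) ∈ S := S_add hw (half_ray_Sc hd hd' hr')
    have h3 : ContinuousAt v (w + (1 / 2 + r * d)) :=
      (hv.differentiableAt (isOpen_S.mem_nhds hm)).continuousAt
    have h4 : ContinuousAt (fun r : ℝ => (w + (1 / 2 + r * d) : ℂ)) r := by fun_prop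
    have h5 := ContinuousAt.comp (f := fun r : ℝ => (1 / 2 + r * d : ℂ)) h1 h2
    have h6 := ContinuousAt.comp (f := fun r : ℝ => (w + (1 / 2 + r * d) : ℂ)) h3 h4
    exact ((h5.mul h6).mul continuousAt_const).continuousWithinAt
  exact hc.aestronglyMeasurable measurableSet_Ioi

lemma J_diff_w {v : ℂ → ℂ} {C₀ : ℝ} (hv : Adm v C₀) {w₀ d : ℂ} (hw : w₀ ∈ S)
    (hd : d.re = 2) (hd' : |d.im| = 1) : DifferentiableAt ℂ (fun w => J d w v (1 / 2)) w₀ := by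
  obtain ⟨C, hC, hK⟩ := K_half hd hd'
  obtain ⟨ε₂, hε₂, hball₂⟩ := Metric.isOpen_iff.mp isOpen_S w₀ hw
  set ε := min ε₂ 1 with hε
  have hεpos : 0 < ε := lt_min hε₂ one_pos
  have hball : ball w₀ ε ⊆ S := (ball_subset_ball (min_le_left _ _)).trans hball₂
  have hε1 : ε ≤ 1 := min_le_right _ _
  have hC₀ := hv.nonneg
  have hexp : ∀ w ∈ ball w₀ ε, ∀ r : ℝ, 0 ≤ r → Real.exp (‖w + (1 / 2 + r * d)‖ / 2) ≤
      Real.exp ((‖w₀‖ + 3 / 2) / 2) * Real.exp (3 / 2 * r) := by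
    intro w hw r hr
    rw [← Real.exp_add]
    apply Real.exp_le_exp.mpr
    have h1 := norm_half_ray hd hd' hr
    have h2 : ‖w - w₀‖ < ε := by simpa [dist_eq_norm] using hw
    have h3 : ‖w + (1 / 2 + r * d)‖ ≤ ‖w₀‖ + ‖w - w₀‖ + ‖(1 / 2 + r * d : ℂ)‖ := by
      calc ‖w + (1 / 2 + r * d)‖ = ‖w₀ + (w - w₀) + (1 / 2 + r * d)‖ := by ring_nf
        _ ≤ ‖w₀ + (w - w₀)‖ + ‖(1 / 2 + r * d : ℂ)‖ := norm_add_le _ _
        _ ≤ _ := by gcongr; exact norm_add_le _ _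
    linarith
  set B : ℝ → ℝ := fun r => C * C₀ * Real.exp ((‖w₀‖ + 3 / 2) / 2) * ‖d‖ * Real.exp (-(3 / 2 * r)) with hB
  have hbd : ∀ w ∈ ball w₀ ε, ∀ r : ℝ, 0 ≤ r → ∀ x : ℂ,
      ‖x‖ ≤ C₀ * Real.exp (‖w + (1 / 2 + r * d)‖ / 2) → ‖K (1 / 2 + r * d) * x * d‖ ≤ B r := by
    intro w hw r hr x hx
    have h1 := hK r hr
    have h2 := hexp w hw r hr
    rw [norm_mul, norm_mul]
    calc ‖K (1 / 2 + r * d)‖ * ‖x‖ * ‖d‖
        ≤ (C * Real.exp (-(3 * r))) * (C₀ * (Real.exp ((‖w₀‖ + 3 / 2) / 2) * Real.exp (3 / 2 * r))) * ‖d‖ := by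
          gcongr
          exact hx.trans (by gcongr)
      _ = C * C₀ * Real.exp ((‖w₀‖ + 3 / 2) / 2) * ‖d‖ * (Real.exp (-(3 * r)) * Real.exp (3 / 2 * r)) := by
          ring
      _ = B r := by
          rw [← Real.exp_add, hB]
          simp only
          congr 2
          ring
  have hBi : Integrable B (volume.restrict (Ioi 0)) := integrable_exp_neg_const _ _ (by norm_num)
  have hw₀ : w₀ ∈ ball w₀ ε := mem_ball_self hεpos
  have hmS : ∀ w ∈ ball w₀ ε, ∀ r : ℝ, 0 ≤ r → w + (1 / 2 + r * d) ∈ S := fun w hw r hr =>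
    S_add (hball hw) (half_ray_Sc hd hd' hr)
  have hdv : DifferentiableOn ℂ (deriv v) S := hv.diff.deriv isOpen_S
  have main := hasDerivAt_integral_of_dominated_loc_of_deriv_le (μ := volume.restrict (Ioi (0:ℝ)))
    (F := fun (w : ℂ) (r : ℝ) => K (1 / 2 + r * d) * v (w + (1 / 2 + r * d)) * d)
    (F' := fun w r => K (1 / 2 + r * d) * deriv v (w + (1 / 2 + r * d)) * d)
    (x₀ := w₀) (s := ball w₀ ε) (bound := B) (ball_mem_nhds w₀ hεpos)
    (by filter_upwards [ball_mem_nhds w₀ hεpos] with w hw using J_meas hv.diff (hball hw) hd hd')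
    (by
      apply hBi.mono' (J_meas hv.diff (hball hw₀) hd hd')
      filter_upwards [ae_restrict_mem measurableSet_Ioi] with r hr
      exact hbd w₀ hw₀ r (le_of_lt hr) _ (hv.bound _ (hmS w₀ hw₀ r (le_of_lt hr))))
    (J_meas hdv (hball hw₀) hd hd')
    (by
      filter_upwards [ae_restrict_mem measurableSet_Ioi] with r hr
      intro w hw
      exact hbd w hw r (le_of_lt hr) _ (hv.bound' _ (hmS w hw r (le_of_lt hr))))
    hBi
    (by
      filter_upwards [ae_restrict_mem measurableSet_Ioi] with r hr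
      intro w hw
      have h1 : HasDerivAt v (deriv v (w + (1 / 2 + r * d))) (w + (1 / 2 + r * d)) :=
        (hv.diff.differentiableAt (isOpen_S.mem_nhds (hmS w hw r (le_of_lt hr)))).hasDerivAt
      have h2 : HasDerivAt (fun w : ℂ => w + (1 / 2 + r * d)) 1 w := (hasDerivAt_id w).add_const _
      have h3 := HasDerivAt.comp w h1 h2
      rw [mul_one] at h3
      exact (h3.const_mul _).mul_const d)
  exact main.2.differentiableAt

lemma F_diff {v : ℂ → ℂ} {C₀ : ℝ} (hv : Adm v C₀) : DifferentiableOn ℂ (F v) S := by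
  intro w hw
  have h1 := J_diff_w (d := 2 + I) hv hw (by simp) (by simp)
  have h2 := J_diff_w (d := 2 - I) hv hw (by simp) (by simp)
  exact (h1.sub h2).differentiableWithinAt

lemma J_bound {d : ℂ} (hd : d.re = 2) (hd' : |d.im| = 1) :
    ∃ C : ℝ, 0 ≤ C ∧ ∀ (v : ℂ → ℂ) (B : ℂ → ℝ), (∀ u ∈ S, ‖v u‖ ≤ B u) →
      (∀ u ∈ S, ∀ u' ∈ S, B u' ≤ Real.exp (‖u' - u‖ / 2) * B u) →
      ∀ w ∈ S, ‖J d w v (1 / 2)‖ ≤ C * B w := by
  obtain ⟨C, hC, hK⟩ := K_half hd hd'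
  refine ⟨∫ r in Ioi (0:ℝ), C * Real.exp (1 / 4) * ‖d‖ * Real.exp (-(3 / 2 * r)), ?_, ?_⟩
  · apply integral_nonneg
    intro r
    positivity
  intro v B hvB hB w hw
  have hB0 : ∀ u ∈ S, 0 ≤ B u := fun u hu => (norm_nonneg _).trans (hvB u hu)
  have hBw := hB0 w hw
  unfold J
  have hb : ∀ r ∈ Ioi (0:ℝ), ‖K (1 / 2 + r * d) * v (w + (1 / 2 + r * d)) * d‖ ≤
      (C * Real.exp (1 / 4) * ‖d‖ * Real.exp (-(3 / 2 * r))) * B w := by
    intro r hr
    have hr' : (0:ℝ) ≤ r := le_of_lt hr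
    have hm : w + (1 / 2 + r * d) ∈ S := S_add hw (half_ray_Sc hd hd' hr')
    have h1 := hK r hr'
    have h2 := hvB _ hm
    have h3 := hB w hw _ hm
    have h4 := norm_half_ray hd hd' hr'
    have h5 : ‖w + (1 / 2 + r * d) - w‖ ≤ 1 / 2 + 3 * r := by
      rw [add_sub_cancel_left]; exact h4
    have h6 : ‖v (w + (1 / 2 + r * d))‖ ≤ Real.exp ((1 / 2 + 3 * r) / 2) * B w := by
      refine h2.trans (h3.trans ?_)
      gcongr
    rw [norm_mul, norm_mul]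
    calc ‖K (1 / 2 + r * d)‖ * ‖v (w + (1 / 2 + r * d))‖ * ‖d‖
        ≤ (C * Real.exp (-(3 * r))) * (Real.exp ((1 / 2 + 3 * r) / 2) * B w) * ‖d‖ := by gcongr
      _ = (C * ‖d‖ * (Real.exp (-(3 * r)) * Real.exp ((1 / 2 + 3 * r) / 2))) * B w := by ring
      _ = (C * ‖d‖ * (Real.exp (1 / 4) * Real.exp (-(3 / 2 * r)))) * B w := by
          rw [← Real.exp_add, ← Real.exp_add]
          congr 3
          ring
      _ = _ := by ring
  have hi : Integrable (fun r : ℝ => (C * Real.exp (1 / 4) * ‖d‖ * Real.exp (-(3 / 2 * r))) * B w)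
      (volume.restrict (Ioi 0)) :=
    (integrable_exp_neg_const _ _ (by norm_num)).mul_const _
  refine (norm_integral_le_of_norm_le hi ?_).trans ?_
  · filter_upwards [ae_restrict_mem measurableSet_Ioi] with r hr using hb r hr
  · rw [integral_mul_const]

lemma F_bound : ∃ C : ℝ, 0 ≤ C ∧ ∀ (v : ℂ → ℂ) (B : ℂ → ℝ), (∀ u ∈ S, ‖v u‖ ≤ B u) →
      (∀ u ∈ S, ∀ u' ∈ S, B u' ≤ Real.exp (‖u' - u‖ / 2) * B u) →
      ∀ w ∈ S, ‖F v w‖ ≤ C * B w := by
  obtain ⟨C1, h1, hC1⟩ := J_bound (d := 2 + I) (by simp) (by simp)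
  obtain ⟨C2, h2, hC2⟩ := J_bound (d := 2 - I) (by simp) (by simp)
  refine ⟨C1 + C2, by positivity, fun v B hv hB w hw => ?_⟩
  unfold F
  refine (norm_sub_le _ _).trans ?_
  rw [add_mul]
  exact add_le_add (hC1 v B hv hB w hw) (hC2 v B hv hB w hw)

end Pool.Agent.Lib.MP_48d627_an
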