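import Mathlib
import Pool.Agent.Lib.MP_48d627_an.Geo
import Pool.Agent.Lib.MP_48d627_an.Major
import Pool.Agent.Lib.MP_48d627_an.Harnack
import Pool.Agent.Lib.MP_48d627_an.Key
import Pool.Agent.Lib.MP_48d627_an.VStep
import Pool.Agent.Lib.MP_48d627_an.FStep

/-! The composition operator, surjectivity and kernel. -/

open Complex Metric Set MeasureTheory Filter Topology
open scoped ENNReal Real

namespace Pool.Agent.Lib.MP_48d627_an

/-- membership in the Hardy space (up to values outside the disc) -/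
def InH (f : ℂ → ℂ) : Prop := DifferentiableOn ℂ f (ball 0 1) ∧ ∃ M : ℝ, HB f M

/-- the maps `z ↦ Z (W z + a)` -/
noncomputable def Phi (a z : ℂ) : ℂ := Z (W z + a)

lemma Phi_mem {a : ℂ} (ha : a ∈ Sc) {z : ℂ} (hz : z ∈ ball (0:ℂ) 1) : Phi a z ∈ ball (0:ℂ) 1 :=
  Z_mem (S_add (W_mem hz) ha)

lemma W_Phi {a : ℂ} (ha : a ∈ Sc) {z : ℂ} (hz : z ∈ ball (0:ℂ) 1) : W (Phi a z) = W z + a :=
  W_Z (S_add (W_mem hz) ha)

lemma Phi_diff {a : ℂ} (ha : a ∈ Sc) : DifferentiableOn ℂ (Phi a) (ball 0 1) := by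
  intro z hz
  have h1 : DifferentiableAt ℂ Z (W z + a) := differentiableAt_Z (S_add (W_mem hz) ha)
  have h2 : DifferentiableAt ℂ (fun z => W z + a) z := (differentiableAt_W hz).add_const a
  exact (DifferentiableAt.comp (f := fun z => W z + a) z h1 h2).differentiableWithinAt

lemma HB_of_bound {f g : ℂ → ℂ} (hf : DifferentiableOn ℂ f (ball 0 1))
    (hg : DifferentiableOn ℂ g (ball 0 1)) {M : ℝ} (hM : HB g M)
    {Φ : ℂ → ℂ} (hΦ : DifferentiableOn ℂ Φ (ball 0 1)) (hm : MapsTo Φ (ball 0 1) (ball 0 1))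
    {C : ℝ} (hC : 0 ≤ C)
    (hb : ∀ z ∈ ball (0:ℂ) 1, ‖f z‖ ≤ C * √((U g (Φ z)).toReal)) :
    ∃ M' : ℝ, HB f M' := by
  refine ⟨C ^ 2 * (2 * π * ((1 + ‖Φ 0‖) / (1 - ‖Φ 0‖)) * M), ?_⟩
  intro r h0 h1
  have hcont := continuous_g_circle hf h0 h1
  have hM0 : 0 ≤ M := by
    have := hM 0 le_rfl one_pos
    refine le_trans ?_ this
    apply intervalIntegral.integral_nonneg (by positivity)
    intro t _
    positivity
  have hΦ0 : ‖Φ 0‖ < 1 := by simpa using hm (mem_ball_self one_pos)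
  have hpos : 0 ≤ 2 * π * ((1 + ‖Φ 0‖) / (1 - ‖Φ 0‖)) * M := by
    have : 0 < 1 - ‖Φ 0‖ := by linarith
    positivity
  rw [intervalIntegral.integral_of_le (by positivity)]
  rw [integral_eq_lintegral_of_nonneg_ae (f := fun t => ‖f (circleMap 0 r t)‖ ^ 2)
    (ae_of_all _ fun t => by positivity) (Continuous.aestronglyMeasurable (hcont.norm.pow 2))]
  apply ENNReal.toReal_le_of_le_ofReal (by positivity)
  calc ∫⁻ t in Ioc 0 (2 * π), ENNReal.ofReal (‖f (circleMap 0 r t)‖ ^ 2)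
      ≤ ∫⁻ t in Ioc 0 (2 * π), ENNReal.ofReal (C ^ 2) * U g (Φ (circleMap 0 r t)) := by
        apply lintegral_mono
        intro t
        have hz := circle_mem h0 h1 t
        have h2 := hb _ hz
        have h3 := U_ne_top hg hM (hm hz)
        have h4 : ‖f (circleMap 0 r t)‖ ^ 2 ≤ C ^ 2 * (U g (Φ (circleMap 0 r t))).toReal := by
          calc ‖f (circleMap 0 r t)‖ ^ 2 ≤ (C * √((U g (Φ (circleMap 0 r t))).toReal)) ^ 2 := by
                gcongr
            _ = _ := by rw [mul_pow, Real.sq_sqrt ENNReal.toReal_nonneg]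
        calc ENNReal.ofReal (‖f (circleMap 0 r t)‖ ^ 2)
            ≤ ENNReal.ofReal (C ^ 2 * (U g (Φ (circleMap 0 r t))).toReal) :=
              ENNReal.ofReal_le_ofReal h4
          _ = ENNReal.ofReal (C ^ 2) * U g (Φ (circleMap 0 r t)) := by
              rw [ENNReal.ofReal_mul (by positivity), ENNReal.ofReal_toReal h3]
    _ = ENNReal.ofReal (C ^ 2) * ∫⁻ t in Ioc 0 (2 * π), U g (Φ (circleMap 0 r t)) :=
        lintegral_const_mul' _ _ ENNReal.ofReal_ne_top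
    _ ≤ ENNReal.ofReal (C ^ 2) * ENNReal.ofReal (2 * π * ((1 + ‖Φ 0‖) / (1 - ‖Φ 0‖)) * M) := by
        gcongr
        exact U_mean hg hM hΦ hm h0 h1
    _ = ENNReal.ofReal (C ^ 2 * (2 * π * ((1 + ‖Φ 0‖) / (1 - ‖Φ 0‖)) * M)) := by
        rw [← ENNReal.ofReal_mul (by positivity)]

lemma norm_le_sqrt_U {g : ℂ → ℂ} (hg : DifferentiableOn ℂ g (ball 0 1)) {M : ℝ} (hM : HB g M) {z : ℂ}
    (hz : z ∈ ball (0:ℂ) 1) : ‖g z‖ ≤ √((U g z).toReal) := by
  have h2 := le_U hg hz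
  have h3 := U_ne_top hg hM hz
  apply Real.le_sqrt_of_sq_le
  have h4 : 2 * π * ‖g z‖ ^ 2 ≤ (U g z).toReal := by
    rw [← ENNReal.ofReal_le_iff_le_toReal h3]
    exact h2
  have h5 : 1 ≤ 2 * π := by linarith [Real.pi_gt_three]
  nlinarith [sq_nonneg ‖g z‖]

lemma InH.comp_Phi {g : ℂ → ℂ} (hg : InH g) {a : ℂ} (ha : a ∈ Sc) : InH (fun z => g (Phi a z)) := by
  obtain ⟨hg1, M, hM⟩ := hg
  have h1 : DifferentiableOn ℂ (fun z => g (Phi a z)) (ball 0 1) :=
    hg1.comp (Phi_diff ha) (fun z hz => Phi_mem ha hz)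
  refine ⟨h1, ?_⟩
  apply HB_of_bound h1 hg1 hM (Phi_diff ha) (fun z hz => Phi_mem ha hz) zero_le_one
  intro z hz
  rw [one_mul]
  exact norm_le_sqrt_U hg1 hM (Phi_mem ha hz)

lemma InH.const_mul {g : ℂ → ℂ} (hg : InH g) (c : ℂ) : InH (fun z => c * g z) := by
  obtain ⟨hg1, M, hM⟩ := hg
  refine ⟨hg1.const_mul c, ‖c‖ ^ 2 * M, fun r h0 h1 => ?_⟩
  have : ∀ t : ℝ, ‖c * g (circleMap 0 r t)‖ ^ 2 = ‖c‖ ^ 2 * ‖g (circleMap 0 r t)‖ ^ 2 := by
    intro t; rw [norm_mul, mul_pow]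
  simp only [this]
  rw [intervalIntegral.integral_const_mul]
  exact mul_le_mul_of_nonneg_left (hM r h0 h1) (by positivity)

lemma InH.sub {f g : ℂ → ℂ} (hf : InH f) (hg : InH g) : InH (fun z => f z - g z) := by
  obtain ⟨hf1, M, hM⟩ := hf
  obtain ⟨hg1, M', hM'⟩ := hg
  refine ⟨hf1.sub hg1, 2 * M + 2 * M', fun r h0 h1 => ?_⟩
  have c1 := continuous_g_circle hf1 h0 h1
  have c2 := continuous_g_circle hg1 h0 h1
  have hle : ∫ t in (0:ℝ)..(2 * π), ‖f (circleMap 0 r t) - g (circleMap 0 r t)‖ ^ 2 ≤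
      ∫ t in (0:ℝ)..(2 * π), (2 * ‖f (circleMap 0 r t)‖ ^ 2 + 2 * ‖g (circleMap 0 r t)‖ ^ 2) := by
    apply intervalIntegral.integral_mono_on (by positivity)
    · exact ((c1.sub c2).norm.pow 2).intervalIntegrable _ _
    · exact ((continuous_const.mul (c1.norm.pow 2)).add
        (continuous_const.mul (c2.norm.pow 2))).intervalIntegrable _ _
    · intro t _
      have h1 := norm_sub_le (f (circleMap 0 r t)) (g (circleMap 0 r t))
      have h2 := norm_nonneg (f (circleMap 0 r t) - g (circleMap 0 r t))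
      nlinarith [sq_nonneg (‖f (circleMap 0 r t)‖ - ‖g (circleMap 0 r t)‖), norm_nonneg (f (circleMap 0 r t)),
        norm_nonneg (g (circleMap 0 r t))]
  refine hle.trans ?_
  rw [intervalIntegral.integral_add, intervalIntegral.integral_const_mul,
    intervalIntegral.integral_const_mul]
  · have := hM r h0 h1
    have := hM' r h0 h1
    linarith
  · exact (continuous_const.mul (c1.norm.pow 2)).intervalIntegrable _ _
  · exact (continuous_const.mul (c2.norm.pow 2)).intervalIntegrable _ _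

lemma InH.congr {f g : ℂ → ℂ} (hf : InH f) (h : ∀ z ∈ ball (0:ℂ) 1, g z = f z) : InH g := by
  obtain ⟨hf1, M, hM⟩ := hf
  refine ⟨hf1.congr h, M, fun r h0 h1 => ?_⟩
  have : ∫ t in (0:ℝ)..(2 * π), ‖g (circleMap 0 r t)‖ ^ 2 =
      ∫ t in (0:ℝ)..(2 * π), ‖f (circleMap 0 r t)‖ ^ 2 := by
    apply intervalIntegral.integral_congr
    intro t _
    simp only
    rw [h _ (circle_mem h0 h1 t)]
  rw [this]
  exact hM r h0 h1

lemma natCast_mem_Sc (n : ℕ) : (n:ℂ) ∈ Sc := by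
  have := ofReal_mem_Sc (x := (n:ℝ)) (by positivity)
  simpa using this

lemma one_mem_Sc : (1:ℂ) ∈ Sc := by
  have := natCast_mem_Sc 1
  simpa using this

lemma one_mem_S : (1:ℂ) ∈ S := by
  have := ofReal_mem_S (x := 1) one_pos
  simpa using this

/-- first step: after 13 iterates the equation can be solved -/
lemma solve13 {g : ℂ → ℂ} (hg : InH g) : ∃ f, InH f ∧ ∀ z ∈ ball (0:ℂ) 1,
    f (Phi 1 z) - Complex.exp (-1) * f z = g (Phi (13:ℕ) z) := by
  obtain ⟨hg1, M, hM⟩ := hg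
  have hadm := vsol_adm hg1 hM
  obtain ⟨C, hC, hF⟩ := F_bound
  have hFd : DifferentiableOn ℂ (fun z => F (vsol g) (W z)) (ball 0 1) := by
    intro z hz
    have h1 : DifferentiableAt ℂ (F (vsol g)) (W z) :=
      (F_diff hadm).differentiableAt (isOpen_S.mem_nhds (W_mem hz))
    exact (DifferentiableAt.comp z h1 (differentiableAt_W hz)).differentiableWithinAt
  have h12 : (12:ℂ) ∈ Sc := by simpa using natCast_mem_Sc 12
  have hFH : InH (fun z => F (vsol g) (W z)) := by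
    refine ⟨hFd, ?_⟩
    apply HB_of_bound hFd hg1 hM (Phi_diff h12) (fun z hz => Phi_mem h12 hz)
      (C := C * 3) (by positivity)
    intro z hz
    have h1 := hF (vsol g) (fun u => 3 * A g u) (fun u hu => norm_vsol_le hg1 hM hu)
      (fun u hu u' hu' => by
        have := A_harnack hg1 hM hu hu'
        calc 3 * A g u' ≤ 3 * (Real.exp (‖u' - u‖ / 2) * A g u) := by gcongr
          _ = _ := by ring) (W z) (W_mem hz)
    refine h1.trans (le_of_eq ?_)
    unfold A Phi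
    ring
  refine ⟨fun z => (π / (2 * I)) * F (vsol g) (W z), hFH.const_mul _, fun z hz => ?_⟩
  have hk := key_identity hadm (W_mem hz)
  have hW := W_mem hz
  have hW1 : W z + 1 ∈ S := S_add hW one_mem_Sc
  rw [(vsol_hasDerivAt hg1 hW1).deriv] at hk
  simp only
  rw [W_Phi one_mem_Sc hz]
  have hpi : (π : ℂ) ≠ 0 := by exact_mod_cast Real.pi_ne_zero
  have h2 : (π / (2 * I)) * F (vsol g) (W z + 1) - Complex.exp (-1) * ((π / (2 * I)) * F (vsol g) (W z)) =
      (π / (2 * I)) * (F (vsol g) (W z + 1) - Complex.exp (-1) * F (vsol g) (W z)) := by ring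
  rw [h2, hk]
  have h3 : W z + 1 + 12 = W z + ((13:ℕ):ℂ) := by push_cast; ring
  rw [h3, show vsol g (W z + 1) + (g (Z (W z + ((13:ℕ):ℂ))) - vsol g (W z + 1)) =
    g (Z (W z + ((13:ℕ):ℂ))) by ring]
  have hI := I_ne_zero
  unfold Phi
  field_simp

lemma descend {g : ℂ → ℂ} (hg : InH g) (n : ℕ) (h : ∃ f, InH f ∧ ∀ z ∈ ball (0:ℂ) 1,
    f (Phi 1 z) - Complex.exp (-1) * f z = g (Phi n z)) :
    ∃ f, InH f ∧ ∀ z ∈ ball (0:ℂ) 1, f (Phi 1 z) - Complex.exp (-1) * f z = g z := by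
  induction n with
  | zero =>
    obtain ⟨f, hf, h⟩ := h
    refine ⟨f, hf, fun z hz => ?_⟩
    rw [h z hz]
    unfold Phi
    rw [Nat.cast_zero, add_zero, Z_W hz]
  | succ n ih =>
    obtain ⟨f, hf, h⟩ := h
    apply ih
    refine ⟨fun z => Complex.exp 1 * (f z - g (Phi n z)),
      (hf.sub (hg.comp_Phi (natCast_mem_Sc n))).const_mul _, fun z hz => ?_⟩
    have h1 := h z hz
    have h2 : Phi n (Phi 1 z) = Phi ((n + 1 : ℕ) : ℂ) z := by
      unfold Phi
      rw [show Z (W z + 1) = Phi 1 z from rfl, W_Phi one_mem_Sc hz]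
      congr 1
      push_cast
      ring
    simp only
    rw [h2, ← h1]
    have he : Complex.exp 1 * Complex.exp (-1) = 1 := by rw [← Complex.exp_add]; simp
    linear_combination (g (Phi n z)) * he

/-- **Surjectivity.** -/
theorem surj {g : ℂ → ℂ} (hg : InH g) :
    ∃ f, InH f ∧ ∀ z ∈ ball (0:ℂ) 1, f (Phi 1 z) - Complex.exp (-1) * f z = g z :=
  descend hg 13 (solve13 hg)

end Pool.Agent.Lib.MP_48d627_an
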