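import Mathlib
import Pool.Agent.Lib.MP_48d627_an.Geo
import Pool.Agent.Lib.MP_48d627_an.Major
import Pool.Agent.Lib.MP_48d627_an.Harnack
import Pool.Agent.Lib.MP_48d627_an.Key
import Pool.Agent.Lib.MP_48d627_an.VStep
import Pool.Agent.Lib.MP_48d627_an.FStep
import Pool.Agent.Lib.MP_48d627_an.Hardy

/-! The kernel is one-dimensional. -/

open Complex Metric Set MeasureTheory Filter Topology
open scoped ENNReal Real

namespace Pool.Agent.Lib.MP_48d627_an

lemma shift_mem {w u : ℂ} (hw : w ∈ S) (hu : u ∈ closedBall w (1 / 2)) : u + 1 ∈ S := by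
  have h1 : 1 + (u - w) ∈ closedBall (1:ℂ) (1 / 2) := by
    rw [mem_closedBall, dist_eq_norm] at *
    rwa [add_sub_cancel_left]
  have h2 := S_add hw (disc_sub_Sc h1)
  have : w + (1 + (u - w)) = u + 1 := by ring
  rwa [this] at h2

lemma adm_shift {f : ℂ → ℂ} (hf : DifferentiableOn ℂ f (ball 0 1)) {M : ℝ} (hM : HB f M) :
    Adm (fun w => f (Z (w + 13))) (2 * Real.exp 1 * (Real.exp (1 / 2) * A f 1)) := by
  have hA0 := A_nonneg f 1
  have hd : DifferentiableOn ℂ (fun w => f (Z (w + 13))) {w | w + 1 ∈ S} := by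
    intro w hw
    have h2 : w + 1 + 12 = w + 13 := by ring
    have h3 : w + 13 ∈ S := by rw [← h2]; exact S_add' hw twelve_mem
    have h1 : DifferentiableAt ℂ f (Z (w + 13)) := hf.differentiableAt (isOpen_ball.mem_nhds (Z_mem h3))
    have h4 : DifferentiableAt ℂ Z (w + 13) := differentiableAt_Z h3
    have h5 : DifferentiableAt ℂ (fun w => Z (w + 13)) w :=
      DifferentiableAt.comp (g := Z) (f := fun w : ℂ => w + 13) w h4 (by fun_prop)
    exact (DifferentiableAt.comp (f := fun w => Z (w + 13)) w h1 h5).differentiableWithinAt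
  have hb : ∀ w ∈ S, ∀ u ∈ closedBall w (1 / 2), ‖f (Z (u + 13))‖ ≤ Real.exp 1 * A f w := by
    intro w hw u hu
    have h1 := shift_mem hw hu
    have h2 : u + 1 + 12 = u + 13 := by ring
    have h3 := norm_le_A hf hM h1
    rw [h2] at h3
    have h4 := A_harnack hf hM hw h1
    have h5 : ‖u + 1 - w‖ ≤ 2 := by
      rw [mem_closedBall, dist_eq_norm] at hu
      calc ‖u + 1 - w‖ = ‖(u - w) + 1‖ := by ring_nf
        _ ≤ ‖u - w‖ + ‖(1:ℂ)‖ := norm_add_le _ _
        _ ≤ 1 / 2 + 1 := by gcongr; simp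
        _ ≤ 2 := by norm_num
    have h6 := A_nonneg f w
    calc ‖f (Z (u + 13))‖ ≤ A f (u + 1) := h3
      _ ≤ Real.exp (‖u + 1 - w‖ / 2) * A f w := h4
      _ ≤ Real.exp 1 * A f w := by
        gcongr
        linarith
  refine ⟨by positivity, ?_, ?_, ?_⟩
  · intro w hw
    have : w ∈ {w | w + 1 ∈ S} := S_add hw one_mem_Sc
    exact (hd.differentiableAt ((isOpen_S.preimage (by fun_prop)).mem_nhds this)).differentiableWithinAt
  · intro u hu
    have h1 := hb u hu u (mem_closedBall_self (by norm_num))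
    have h2 := A_le_base hf hM hu
    calc ‖f (Z (u + 13))‖ ≤ Real.exp 1 * A f u := h1
      _ ≤ Real.exp 1 * (Real.exp (1 / 2) * A f 1 * Real.exp (‖u‖ / 2)) := by gcongr
      _ ≤ 2 * (Real.exp 1 * (Real.exp (1 / 2) * A f 1 * Real.exp (‖u‖ / 2))) := by
        have : 0 ≤ Real.exp 1 * (Real.exp (1 / 2) * A f 1 * Real.exp (‖u‖ / 2)) := by positivity
        linarith
      _ = _ := by ring
  · intro u hu
    have h2 := A_le_base hf hM hu
    have h1 := Complex.norm_deriv_le_of_forall_mem_sphere_norm_le (c := u) (R := 1 / 2)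
      (C := Real.exp 1 * A f u) (f := fun w => f (Z (w + 13))) (by norm_num)
      (by
        apply DifferentiableOn.diffContOnCl
        rw [closure_ball _ (by norm_num)]
        exact hd.mono (fun x hx => shift_mem hu hx))
      (fun z hz => hb u hu z (sphere_subset_closedBall hz))
    calc ‖deriv (fun w => f (Z (w + 13))) u‖ ≤ Real.exp 1 * A f u / (1 / 2) := h1
      _ = 2 * (Real.exp 1 * A f u) := by ring
      _ ≤ 2 * (Real.exp 1 * (Real.exp (1 / 2) * A f 1 * Real.exp (‖u‖ / 2))) := by gcongr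
      _ = _ := by ring

lemma J_scale (d w : ℂ) (v : ℂ → ℂ) (hd : d.re = 2) (hd' : |d.im| = 1) (hw : w ∈ S)
    (hv : ∀ u ∈ S, v (u + 1) = Complex.exp (-1) * v u) :
    J d (w + 1) v (1 / 2) = Complex.exp (-1) * J d w v (1 / 2) := by
  unfold J
  rw [← integral_const_mul]
  apply setIntegral_congr_fun measurableSet_Ioi
  intro r hr
  have hr' : (0:ℝ) ≤ r := le_of_lt hr
  have h1 : w + (1 / 2 + r * d) ∈ S := S_add hw (half_ray_Sc hd hd' hr')
  have h2 : w + 1 + (1 / 2 + r * d) = w + (1 / 2 + r * d) + 1 := by ring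
  simp only
  rw [h2, hv _ h1]
  ring

/-- **The kernel is spanned by `exp (-W)`.** -/
theorem kernel {f : ℂ → ℂ} (hf : InH f)
    (h : ∀ z ∈ ball (0:ℂ) 1, f (Phi 1 z) = Complex.exp (-1) * f z) :
    ∃ c : ℂ, ∀ z ∈ ball (0:ℂ) 1, f z = c * Complex.exp (-W z) := by
  obtain ⟨hf1, M, hM⟩ := hf
  set k : ℂ → ℂ := fun w => f (Z w) with hk
  have hk1 : ∀ w ∈ S, k (w + 1) = Complex.exp (-1) * k w := by
    intro w hw
    have := h (Z w) (Z_mem hw)
    unfold Phi at this
    rw [W_Z hw] at this
    exact this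
  have hkn : ∀ (n : ℕ), ∀ w ∈ S, k (w + n) = Complex.exp (-n) * k w := by
    intro n
    induction n with
    | zero => intro w _; simp
    | succ n ih =>
      intro w hw
      have h1 : w + ((n + 1 : ℕ) : ℂ) = w + n + 1 := by push_cast; ring
      rw [h1, hk1 _ (S_add hw (natCast_mem_Sc n)), ih w hw, ← mul_assoc, ← Complex.exp_add]
      congr 2
      push_cast
      ring
  have hadm := adm_shift hf1 hM
  set v : ℂ → ℂ := fun w => f (Z (w + 13)) with hv
  have hvk : ∀ w, v w = k (w + 13) := fun w => rfl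
  have hv1 : ∀ u ∈ S, v (u + 1) = Complex.exp (-1) * v u := by
    intro u hu
    have h13 : u + 13 ∈ S := S_add hu (by simpa using natCast_mem_Sc 13)
    rw [hvk, hvk, ← hk1 _ h13]
    congr 1
    ring
  have hkd : DifferentiableOn ℂ k S := by
    intro w hw
    have h1 : DifferentiableAt ℂ f (Z w) := hf1.differentiableAt (isOpen_ball.mem_nhds (Z_mem hw))
    exact (DifferentiableAt.comp w h1 (differentiableAt_Z hw)).differentiableWithinAt
  have hode : ∀ w ∈ S, k w + deriv k w = 0 := by
    intro w hw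
    have h1 := key_identity hadm hw
    unfold F at h1
    rw [J_scale (2 + I) w v (by simp) (by simp) hw hv1, J_scale (2 - I) w v (by simp) (by simp) hw hv1] at h1
    have h2 : 2 * I / π * (v (w + 1) + deriv v (w + 1)) = 0 := by
      rw [← h1]; ring
    have hpi : (π : ℂ) ≠ 0 := by exact_mod_cast Real.pi_ne_zero
    have h3 : v (w + 1) + deriv v (w + 1) = 0 := by
      rcases mul_eq_zero.mp h2 with h3 | h3
      · exfalso
        have : 2 * I / (π:ℂ) ≠ 0 :=
          div_ne_zero (mul_ne_zero two_ne_zero I_ne_zero) hpi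
        exact this h3
      · exact h3
    -- transfer to `k`
    have h4 : (fun u => v (u + 1)) =ᶠ[𝓝 w] fun u => Complex.exp (-(14:ℕ)) * k u := by
      filter_upwards [isOpen_S.mem_nhds hw] with u hu
      rw [hvk, ← hkn 14 u hu]
      congr 1
      push_cast
      ring
    have h5 : deriv (fun u => v (u + 1)) w = deriv v (w + 1) := by
      rw [deriv_comp_add_const]
    have h6 : deriv (fun u => v (u + 1)) w = Complex.exp (-(14:ℕ)) * deriv k w := by
      rw [h4.deriv_eq, deriv_const_mul _ (hkd.differentiableAt (isOpen_S.mem_nhds hw))]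
    have h7 : v (w + 1) = Complex.exp (-(14:ℕ)) * k w := h4.eq_of_nhds
    rw [← h5, h6, h7, ← mul_add] at h3
    rcases mul_eq_zero.mp h3 with h8 | h8
    · exact absurd h8 (Complex.exp_ne_zero _)
    · exact h8
  -- constancy
  have hconst : ∀ w ∈ S, Complex.exp w * k w = Complex.exp 1 * k 1 := by
    intro w hw
    have hd : DifferentiableOn ℂ (fun w => Complex.exp w * k w) S :=
      Complex.differentiable_exp.differentiableOn.mul hkd
    have hpre : IsPreconnected S := convex_S.isPreconnected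
    refine isOpen_S.is_const_of_deriv_eq_zero hpre hd (fun u hu => ?_) hw one_mem_S
    have h1 : HasDerivAt k (deriv k u) u := (hkd.differentiableAt (isOpen_S.mem_nhds hu)).hasDerivAt
    have h2 := (Complex.hasDerivAt_exp u).mul h1
    have h3 := h2.deriv
    have h4 := hode u hu
    show deriv (fun w => Complex.exp w * k w) u = 0
    have h5 : deriv (fun w => Complex.exp w * k w) u = Complex.exp u * k u + Complex.exp u * deriv k u := h3
    rw [h5, ← mul_add, h4, mul_zero]
  refine ⟨Complex.exp 1 * k 1, fun z hz => ?_⟩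
  have h1 := hconst (W z) (W_mem hz)
  have h2 : k (W z) = f z := by rw [hk]; simp only; rw [Z_W hz]
  rw [h2] at h1
  rw [← h1]
  have he : Complex.exp (W z) * Complex.exp (-W z) = 1 := by rw [← Complex.exp_add]; simp
  linear_combination (-(f z)) * he

/-- the eigenfunction is in the Hardy space -/
lemma eigen_InH : InH (fun z => Complex.exp (-W z)) := by
  have hd : DifferentiableOn ℂ (fun z => Complex.exp (-W z)) (ball 0 1) := by
    intro z hz
    exact (differentiableAt_W hz).neg.cexp.differentiableWithinAt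
  refine ⟨hd, 2 * π, fun r h0 h1 => ?_⟩
  have hc := continuous_g_circle hd h0 h1
  have hle : ∫ t in (0:ℝ)..(2 * π), ‖Complex.exp (-W (circleMap 0 r t))‖ ^ 2 ≤
      ∫ t in (0:ℝ)..(2 * π), (1:ℝ) := by
    apply intervalIntegral.integral_mono_on (by positivity)
    · exact (hc.norm.pow 2).intervalIntegrable _ _
    · exact intervalIntegrable_const
    · intro t _
      have h2 := S_re_pos (W_mem (circle_mem h0 h1 t))
      have h3 : ‖Complex.exp (-W (circleMap 0 r t))‖ ≤ 1 := by
        rw [Complex.norm_exp]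
        apply Real.exp_le_one_iff.mpr
        simp only [neg_re]
        linarith
      exact pow_le_one₀ (norm_nonneg _) h3
  refine hle.trans ?_
  simp

end Pool.Agent.Lib.MP_48d627_an
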